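import Mathlib

set_option autoImplicit false

/-! Definitions used in the statement of the result for problem MP_8d80dd_co. -/

namespace Pool.Agent.Work.MP_8d80dd_co

/-- `w` is a factor of the infinite word `u`: `w = u_i u_{i+1} ... u_{i+n-1}` for some `i, n`. -/
def IsFactor {A : Type*} (u : ℕ → A) (w : List A) : Prop :=
  ∃ i n : ℕ, w = (List.range n).map (fun k => u (i + k))

/-- `w` is a left special factor of `u`: `aw` and `bw` are factors for two distinct letters. -/
def LeftSpecial {A : Type*} (u : ℕ → A) (w : List A) : Prop :=
  ∃ a b : A, a ≠ b ∧ IsFactor u (a :: w) ∧ IsFactor u (b :: w)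

/-- `u` is episturmian: its language is closed under reversal and for every `n` it has at most
one left special factor of length `n`. -/
structure Episturmian {A : Type*} (u : ℕ → A) : Prop where
  closed_reverse : ∀ w : List A, IsFactor u w → IsFactor u w.reverse
  special_unique : ∀ (n : ℕ) (w w' : List A), w.length = n → w'.length = n →
    LeftSpecial u w → LeftSpecial u w' → w = w'

/-- the set of palindromic factors of a finite word (the empty word included) -/
def PalFactors {A : Type*} (w : List A) : Set (List A) :=
  {p | p <:+: w ∧ p.reverse = p}

/-- a finite word is rich if it has exactly `|w| + 1` distinct palindromic factors -/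
def Rich {A : Type*} (w : List A) : Prop := (PalFactors w).ncard = w.length + 1

/-- an infinite word is rich if each of its factors is rich -/
def RichWord {A : Type*} (u : ℕ → A) : Prop := ∀ w : List A, IsFactor u w → Rich w

end Pool.Agent.Work.MP_8d80dd_co
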