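import Pool.Agent.Work.MP_8d80dd_co.Lam4

set_option autoImplicit false

namespace Pool.Agent.Work.MP_8d80dd_co

open List

section Epi
variable {A : Type*}

def LS (L : Set (List A)) (w : List A) : Prop := ∃ a b, a ≠ b ∧ (a :: w) ∈ L ∧ (b :: w) ∈ L

structure EpiLang (L : Set (List A)) : Prop where
  fac : Fac L
  rev : ∀ w ∈ L, w.reverse ∈ L
  ext : ∀ w ∈ L, ∃ b, w ++ [b] ∈ L
  nil : [] ∈ L
  dir : ∀ w ∈ L, ∀ w' ∈ L, ∃ z ∈ L, w <:+: z ∧ w' <:+: z
  ls : ∀ w w' : List A, w.length = w'.length → LS L w → LS L w' → w = w'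

theorem EpiLang.Ext {L : Set (List A)} (h : EpiLang L) : Ext L := by
  intro x hx
  obtain ⟨f, hf⟩ := h.ext x hx
  obtain ⟨e, he⟩ := h.ext _ (h.rev _ hf)
  have := h.rev _ he
  exact ⟨e, f, by simpa using this⟩

theorem letters_aux {L : Set (List A)} (h : EpiLang L) (S : List A) : ∀ (x y : A) (P : List A),
    (P ++ x :: y :: S) ∈ L → ¬ LS L [x] → ¬ LS L [y] → ∀ c ∈ S, c = x ∨ c = y := by
  induction S with
  | nil => intro x y P _ _ _ c hc; simp at hc
  | cons c S ih =>
    intro x y P hL hx hy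
    have h1 : [x, y] ∈ L := h.fac _ hL _ ⟨P, c :: S, by simp⟩
    have h2 : [y, c] ∈ L := h.fac _ hL _ ⟨P ++ [x], S, by simp⟩
    have h3 : [c, y] ∈ L := by simpa using h.rev _ h2
    have h4 : c = x := by
      by_contra hne
      exact hy ⟨c, x, hne, h3, h1⟩
    subst h4
    have h5 := ih y c (P ++ [c]) (by simpa using hL) hy hx
    intro d hd
    rcases List.mem_cons.1 hd with rfl | hd
    · exact Or.inl rfl
    · exact (h5 d hd).symm

theorem letters {L : Set (List A)} (h : EpiLang L) {x y : A} {z : List A} (hz : z ∈ L)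
    (hxy : [x, y] <:+: z) (hx : ¬ LS L [x]) (hy : ¬ LS L [y]) : ∀ c ∈ z, c = x ∨ c = y := by
  obtain ⟨P, S, rfl⟩ := hxy
  have h1 := letters_aux h S x y P (by simpa using hz) hx hy
  have h2 := letters_aux h P.reverse y x S.reverse (by
    have := h.rev _ hz
    simpa using this) hy hx
  intro c hc
  simp only [List.append_assoc, List.cons_append, List.nil_append, List.mem_append,
    List.mem_cons] at hc
  rcases hc with hc | hc | hc | hc
  · exact (h2 c (by simpa using hc)).symm
  · exact Or.inl hc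
  · exact Or.inr hc
  · exact h1 c hc

theorem sep_of_pairs {L : Set (List A)} (h : EpiLang L) {b : A}
    (hb : ∀ c d, [c, d] ∈ L → c = b ∨ d = b) : ∀ w ∈ L, Sep b w := by
  intro w
  induction w with
  | nil => intro _; simp [Sep]
  | cons c w ih =>
    intro hw
    have h1 := ih (h.fac _ hw _ ⟨[c], [], by simp⟩)
    unfold Sep at *
    rw [List.isChain_cons]
    refine ⟨fun y hy => ?_, h1⟩
    cases w with
    | nil => simp at hy
    | cons d w =>
      have h2 : d = y := by simpa using hy
      subst h2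
      exact hb c d (h.fac _ hw _ ⟨[], w, by simp⟩)

theorem exists_sep {L : Set (List A)} (h : EpiLang L) :
    ∃ b, [b] ∈ L ∧ ∀ w ∈ L, Sep b w := by
  by_cases hls : ∃ b, LS L [b]
  · obtain ⟨b, hb⟩ := hls
    have hbL : [b] ∈ L := by
      obtain ⟨a, c, _, h1, _⟩ := hb
      exact h.fac _ h1 _ ⟨[a], [], by simp⟩
    refine ⟨b, hbL, sep_of_pairs h ?_⟩
    intro c d hcd
    by_contra hcon
    push Not at hcon
    have hc : ¬ LS L [c] := by
      intro h1
      have := h.ls [c] [b] rfl h1 hb
      simp only [List.cons.injEq, and_true] at this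
      exact hcon.1 this
    have hd : ¬ LS L [d] := by
      intro h1
      have := h.ls [d] [b] rfl h1 hb
      simp only [List.cons.injEq, and_true] at this
      exact hcon.2 this
    obtain ⟨z, hz, hz1, hz2⟩ := h.dir _ hcd _ hbL
    have hbz : b ∈ z := hz2.subset (by simp)
    rcases letters h hz hz1 hc hd b hbz with h3 | h3
    · exact hcon.1 h3.symm
    · exact hcon.2 h3.symm
  · obtain ⟨x, hx⟩ := h.ext _ h.nil
    obtain ⟨y, hy⟩ := h.ext _ hx
    simp only [List.nil_append, List.cons_append] at hx hy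
    refine ⟨x, hx, sep_of_pairs h ?_⟩
    intro c d hcd
    obtain ⟨z, hz, hz1, hz2⟩ := h.dir _ hy _ hcd
    have hxl : ¬ LS L [x] := fun h1 => hls ⟨x, h1⟩
    have hyl : ¬ LS L [y] := fun h1 => hls ⟨y, h1⟩
    have hl := letters h hz hz1 hxl hyl
    rcases hl c (hz2.subset (by simp)) with h1 | h1
    · exact Or.inl h1
    · rcases hl d (hz2.subset (by simp)) with h2 | h2
      · exact Or.inr h2
      · subst h1; subst h2
        by_contra hcon
        push Not at hcon
        exact hyl ⟨_, x, hcon.1, hcd, hy⟩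

variable [DecidableEq A]

theorem dec_closed {b : A} : ∀ (n : ℕ) (x : List A), x.length ≤ n → Sep b (b :: x) →
    (∃ t, b :: x = t ++ [b]) → ∃ x', Psi b x' = b :: x := by
  intro n
  induction n with
  | zero =>
    intro x hx _ _
    have : x = [] := List.length_eq_zero_iff.1 (by omega)
    subst this
    exact ⟨[], rfl⟩
  | succ n ih =>
    intro x hx hsep hend
    rcases x with _ | ⟨c, x⟩
    · exact ⟨[], rfl⟩
    by_cases hc : c = b
    · subst hc
      obtain ⟨x', hx'⟩ := ih x (by simp at hx; omega) (hsep.sub ⟨[c], [], by simp⟩) (by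
        obtain ⟨t, ht⟩ := hend
        cases t with
        | nil => simp at ht
        | cons t0 t =>
          simp only [List.cons_append, List.cons.injEq] at ht
          exact ⟨t, ht.2⟩)
      exact ⟨c :: x', by rw [Psi_cons_self, hx']⟩
    · rcases x with _ | ⟨d, x⟩
      · exfalso
        obtain ⟨t, ht⟩ := hend
        have : [b] ++ [c] = t ++ [b] := by simpa using ht
        have := List.append_inj_right' this rfl
        simp only [List.cons.injEq, and_true] at this
        exact hc this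
      · have hd : d = b := by
          have := Sep.pair (P := [b]) (S := x) (c := c) (d := d) (by simpa using hsep)
          tauto
        subst hd
        obtain ⟨x', hx'⟩ := ih x (by simp at hx; omega) (hsep.sub ⟨[d, c], [], by simp⟩) (by
          obtain ⟨t, ht⟩ := hend
          cases t with
          | nil => simp at ht
          | cons t0 t =>
            cases t with
            | nil => simp at ht
            | cons t1 t =>
              simp only [List.cons_append, List.cons.injEq] at ht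
              exact ⟨t, ht.2.2⟩)
        exact ⟨c :: x', by rw [Psi_cons_ne hc, hx']⟩

theorem Psi_eq_psi (b : A) (z : List A) : Psi b z = psi b (z ++ [b]) := by
  rw [psi_append]; simp [Psi]

theorem Psi_infix_decode {b : A} {w z : List A} (h : Psi b w <:+: Psi b z) : w <:+: z := by
  obtain ⟨P, S, hPS⟩ := h
  have h1 : psi b (z ++ [b]) = P ++ (psi b w ++ b :: S) := by
    rw [← Psi_eq_psi, ← hPS]; simp [Psi]
  obtain ⟨t, ht⟩ := Psi_head (s := b) w
  have h2 : ∃ t', psi b w ++ b :: S = b :: t' := by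
    refine ⟨t ++ S, ?_⟩
    have : psi b w ++ b :: S = Psi b w ++ S := by simp [Psi]
    rw [this, ht]; simp
  obtain ⟨t', ht'⟩ := h2
  rw [ht'] at h1
  obtain ⟨m1, m2, h3, h4, h5⟩ := psi_split _ _ _ h1
  rw [← ht'] at h5
  obtain ⟨m3, m4, h6, h7, h8⟩ := psi_split _ _ _ h5
  have h9 : m3 = w := by
    apply Psi_injective (s := b)
    rw [Psi, Psi, h7]
  subst h9
  rcases List.eq_nil_or_concat' m4 with rfl | ⟨m5, e, rfl⟩
  · simp at h8
  · rw [h6] at h3
    have h10 : z ++ [b] = (m1 ++ (m3 ++ m5)) ++ [e] := by rw [h3]; simp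
    have h11 := List.append_inj_left' h10 rfl
    exact ⟨m1, m5, by rw [h11]; simp⟩

omit [DecidableEq A] in
theorem LS.pre {L : Set (List A)} (hf : Fac L) {x y : List A} (h : LS L y) (hxy : x <+: y) :
    LS L x := by
  obtain ⟨a, b, hab, h1, h2⟩ := h
  obtain ⟨z, rfl⟩ := hxy
  exact ⟨a, b, hab, hf _ h1 _ ⟨[], z, by simp⟩, hf _ h2 _ ⟨[], z, by simp⟩⟩

/-- the derived language -/
def Der (b : A) (L : Set (List A)) : Set (List A) := {z | Psi b z ∈ L}

theorem closing {L : Set (List A)} (h : EpiLang L) {b : A} (hb : [b] ∈ L)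
    (hsep : ∀ w ∈ L, Sep b w) : ∀ z ∈ L, ∃ z' ∈ Der b L, z <:+: Psi b z' := by
  -- close on the right
  have hright : ∀ z ∈ L, ∃ z1 ∈ L, (∃ v, z1 = z ++ v) ∧ ∃ t, z1 = t ++ [b] := by
    intro z hz
    rcases List.eq_nil_or_concat' z with rfl | ⟨z0, e, rfl⟩
    · exact ⟨[b], hb, ⟨[b], rfl⟩, ⟨[], rfl⟩⟩
    · by_cases he : e = b
      · subst he
        exact ⟨_, hz, ⟨[], by simp⟩, ⟨z0, rfl⟩⟩
      · obtain ⟨c, hc⟩ := h.ext _ hz
        have hcb : c = b := by
          have := Sep.pair (P := z0) (S := []) (c := e) (d := c) (by simpa using hsep _ hc)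
          tauto
        subst hcb
        exact ⟨_, hc, ⟨[c], rfl⟩, ⟨z0 ++ [e], rfl⟩⟩
  intro z hz
  obtain ⟨z1, hz1, ⟨v, hv⟩, ⟨t, ht⟩⟩ := hright z hz
  obtain ⟨z2, hz2, ⟨v2, hv2⟩, ⟨t2, ht2⟩⟩ := hright z1.reverse (h.rev _ hz1)
  have hz3 := h.rev _ hz2
  have e1 : z2.reverse = b :: t2.reverse := by rw [ht2]; simp
  have e2 : z2.reverse = (v2.reverse ++ t) ++ [b] := by rw [hv2, ht]; simp
  obtain ⟨x', hx'⟩ := dec_closed (b := b) _ t2.reverse le_rfl (by rw [← e1]; exact hsep _ hz3)
    ⟨v2.reverse ++ t, by rw [← e1, e2]⟩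
  refine ⟨x', ?_, ?_⟩
  · show Psi b x' ∈ L
    rw [hx', ← e1]; exact hz3
  · rw [hx', ← e1]
    have : z2.reverse = v2.reverse ++ z ++ v := by rw [hv2, hv]; simp
    exact ⟨v2.reverse, v, this.symm⟩

theorem EpiLang.derived {L : Set (List A)} (h : EpiLang L) {b : A} (hb : [b] ∈ L)
    (hsep : ∀ w ∈ L, Sep b w) : EpiLang (Der b L) where
  fac := by
    rintro z hz x ⟨P, S, rfl⟩
    apply h.fac _ hz
    obtain ⟨t, ht⟩ := Psi_head (s := b) S
    refine ⟨psi b P, t, ?_⟩
    rw [List.append_assoc P, Psi_append, Psi_append, ht]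
    simp [Psi]
  rev := by
    intro w hw
    show Psi b w.reverse ∈ L
    rw [Psi_reverse]; exact h.rev _ hw
  ext := by
    intro w hw
    obtain ⟨c, hc⟩ := h.ext _ hw
    by_cases hcb : c = b
    · subst hcb
      refine ⟨c, ?_⟩
      show Psi c (w ++ [c]) ∈ L
      have : Psi c (w ++ [c]) = Psi c w ++ [c] := by
        rw [Psi_append]; simp [Psi]
      rw [this]; exact hc
    · obtain ⟨d, hd⟩ := h.ext _ hc
      have hdb : d = b := by
        have := Sep.pair (P := Psi b w) (S := []) (c := c) (d := d) (by simpa using hsep _ hd)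
        tauto
      subst hdb
      refine ⟨c, ?_⟩
      show Psi d (w ++ [c]) ∈ L
      have : Psi d (w ++ [c]) = Psi d w ++ [c] ++ [d] := by
        rw [Psi_append, Psi_cons_ne hcb]; simp [Psi]
      rw [this]; exact hd
  nil := hb
  dir := by
    intro w hw w' hw'
    obtain ⟨z, hz, h1, h2⟩ := h.dir _ hw _ hw'
    obtain ⟨z', hz', h3⟩ := closing h hb hsep z hz
    exact ⟨z', hz', Psi_infix_decode (h1.trans h3), Psi_infix_decode (h2.trans h3)⟩
  ls := by
    have key : ∀ w, LS (Der b L) w → LS L (Psi b w) := by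
      rintro w ⟨a, c, hac, h1, h2⟩
      have aux : ∀ d, (d :: w) ∈ Der b L → (d :: Psi b w) ∈ L := by
        intro d hd
        apply h.fac _ hd
        rw [Psi_cons]
        by_cases hdb : d = b
        · subst hdb; exact ⟨[], [], by simp⟩
        · exact ⟨[b], [], by simp [psiL_ne hdb]⟩
      exact ⟨a, c, hac, aux a h1, aux c h2⟩
    have main : ∀ w w' : List A, w.length = w'.length → LS (Der b L) w → LS (Der b L) w' →
        (Psi b w).length ≤ (Psi b w').length → w = w' := by
      intro w w' hl h1 h2 hle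
      have h3 : LS L ((Psi b w').take (Psi b w).length) :=
        (key _ h2).pre h.fac (List.take_prefix _ _)
      have h4 : Psi b w = (Psi b w').take (Psi b w).length := by
        apply h.ls _ _ _ (key _ h1) h3
        simp [hle]
      have h5 : Psi b w <+: Psi b w' := by
        rw [h4]; exact List.take_prefix _ _
      exact (Psi_prefix h5).eq_of_length hl
    intro w w' hl h1 h2
    rcases le_total (Psi b w).length (Psi b w').length with hle | hle
    · exact main w w' hl h1 h2 hle
    · exact (main w' w hl.symm h2 h1 hle).symm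

end Epi

end Pool.Agent.Work.MP_8d80dd_co
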