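import Pool.Agent.Work.MP_8d80dd_co.Main
import Pool.Agent.Work.MP_8d80dd_co.Defs

set_option autoImplicit false

namespace Pool.Agent.Work.MP_8d80dd_co

open List

section Final
variable {A : Type*}

theorem isFactor_iff {u : ℕ → A} {w : List A} : IsFactor u w ↔
    ∃ i : ℕ, w = (List.range w.length).map (fun k => u (i + k)) := by
  constructor
  · rintro ⟨i, n, rfl⟩
    exact ⟨i, by simp⟩
  · rintro ⟨i, h⟩
    exact ⟨i, _, h⟩

theorem block_append (u : ℕ → A) (i n m : ℕ) :
    (List.range (n + m)).map (fun k => u (i + k)) =
      (List.range n).map (fun k => u (i + k)) ++ (List.range m).map (fun k => u (i + n + k)) := by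
  rw [List.range_add, List.map_append, List.map_map]
  congr 1
  apply List.map_congr_left
  intro k _
  simp [add_assoc]

theorem IsFactor.of_sub {u : ℕ → A} {w x : List A} (h : IsFactor u w) (hx : x <:+: w) :
    IsFactor u x := by
  obtain ⟨i, n, hw⟩ := h
  obtain ⟨P, S, hPS⟩ := hx
  have hn : n = P.length + x.length + S.length := by
    have : (P ++ x ++ S).length = n := by rw [hPS, hw]; simp
    rw [← this]; simp [List.length_append]; omega
  rw [hn, block_append, block_append, ← hPS] at hw
  have h1 := List.append_inj_left' hw (by simp)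
  have h2 := List.append_inj_right' h1 (by simp)
  exact ⟨_, _, h2⟩

theorem epiLang {u : ℕ → A} (hu : Episturmian u) : EpiLang {w | IsFactor u w} where
  fac := fun m hm x hx => IsFactor.of_sub hm hx
  rev := fun w hw => hu.closed_reverse w hw
  ext := by
    rintro w ⟨i, n, rfl⟩
    refine ⟨u (i + n), i, n + 1, ?_⟩
    rw [block_append]; simp
  nil := ⟨0, 0, by simp⟩
  dir := by
    rintro w ⟨i, n, rfl⟩ w' ⟨j, m, rfl⟩
    refine ⟨(List.range ((i + n) + (j + m))).map (fun k => u (0 + k)), ⟨0, _, rfl⟩, ?_, ?_⟩
    · rw [block_append, block_append]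
      exact ⟨(List.range i).map (fun k => u (0 + k)),
        (List.range (j + m)).map (fun k => u (0 + (i + n) + k)), by simp⟩
    · have : (i + n) + (j + m) = (j + m) + (i + n) := by omega
      rw [this, block_append, block_append]
      exact ⟨(List.range j).map (fun k => u (0 + k)),
        (List.range (i + n)).map (fun k => u (0 + (j + m) + k)), by simp⟩
  ls := fun w w' hl h1 h2 => hu.special_unique w'.length w w' hl rfl h1 h2

/-- complete returns to palindromes are palindromes -/
def CR (w : List A) : Prop := ∀ r : List A, r <:+: w → ∀ y : List A, y.reverse = y →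
  y <+: r → y <:+ r → y.length < r.length → (∀ c d : A, ¬ (c :: (y ++ [d])) <:+: r) →
  r.reverse = r

theorem palFactors_nil : PalFactors ([] : List A) = {[]} := by
  ext p
  simp only [PalFactors, Set.mem_singleton_iff]
  change (p <:+: [] ∧ p.reverse = p) ↔ p = []
  constructor
  · rintro ⟨h, _⟩; simpa using h
  · rintro rfl; simp

theorem palFactors_finite (w : List A) : (PalFactors w).Finite := by
  apply Set.Finite.subset (List.finite_toSet w.sublists)
  rintro p ⟨hp, _⟩
  change p ∈ w.sublists
  rw [List.mem_sublists]
  exact hp.sublist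

theorem exists_longest_pal_suffix (w : List A) : ∃ q : List A, q <:+ w ∧ q.reverse = q ∧
    ∀ p : List A, p <:+ w → p.reverse = p → p.length ≤ q.length := by
  classical
  have hex : ∃ n, ∃ q : List A, q <:+ w ∧ q.reverse = q ∧ q.length = w.length - n :=
    ⟨w.length, [], List.nil_suffix, rfl, by simp⟩
  obtain ⟨q, h1, h2, h3⟩ := Nat.find_spec hex
  refine ⟨q, h1, h2, ?_⟩
  intro p hp1 hp2
  by_contra hlt
  push Not at hlt
  have hpw := hp1.length_le
  have hm := Nat.find_min' hex (m := w.length - p.length) ⟨p, hp1, hp2, by omega⟩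
  omega

theorem rich_of_CR (w : List A) (h : CR w) : Rich w := by
  induction w using List.reverseRecOn with
  | nil =>
    unfold Rich
    rw [palFactors_nil]; simp
  | append_singleton w c ih =>
    have hw : CR w := fun r hr => h r (hr.trans ⟨[], [c], by simp⟩)
    have ihw := ih hw
    obtain ⟨q, hq1, hq2, hq3⟩ := exists_longest_pal_suffix (w ++ [c])
    have hqne : 1 ≤ q.length := by
      have := hq3 [c] ⟨w, rfl⟩ rfl
      simpa using this
    -- q is not a factor of w
    have hqw : q ∉ PalFactors w := by
      rintro ⟨hq4, _⟩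
      have hex : ∃ n, ∃ r : List A, r <:+ (w ++ [c]) ∧ q <+: r ∧ q.length < r.length ∧
          r.length = n := by
        obtain ⟨P, S, hPS⟩ := hq4
        refine ⟨_, q ++ (S ++ [c]), ⟨P, by rw [← hPS]; simp⟩, List.prefix_append _ _, ?_, rfl⟩
        simp
      classical
      obtain ⟨r, hr1, hr2, hr3, hr4⟩ := Nat.find_spec hex
      have hr5 : q <:+ r := List.suffix_of_suffix_length_le hq1 hr1 hr3.le
      have hr6 := h r hr1.isInfix q hq2 hr2 hr5 hr3 (by
        rintro c' d ⟨P, S, hPS⟩
        have hsuf : (q ++ (d :: S)) <:+ r := ⟨P ++ [c'], by rw [← hPS]; simp⟩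
        have hlt : (q ++ (d :: S)).length < r.length := by
          rw [← hPS]; simp [List.length_append]; omega
        have := Nat.find_min' hex (m := (q ++ (d :: S)).length)
          ⟨_, hsuf.trans hr1, List.prefix_append _ _, by simp, rfl⟩
        omega)
      have := hq3 r hr1 hr6
      omega
    have hset : PalFactors (w ++ [c]) = insert q (PalFactors w) := by
      ext p
      simp only [Set.mem_insert_iff]
      constructor
      · rintro ⟨hp1, hp2⟩
        by_cases hpw : p <:+: w
        · exact Or.inr ⟨hpw, hp2⟩
        · left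
          obtain ⟨P, S, hPS⟩ := hp1
          rcases List.eq_nil_or_concat' S with rfl | ⟨S, e, rfl⟩
          · have hps : p <:+ (w ++ [c]) := ⟨P, by simpa using hPS⟩
            have hle := hq3 p hps hp2
            rcases Nat.lt_or_ge p.length q.length with hlt | hge
            · exfalso
              have h1 : p <:+ q := List.suffix_of_suffix_length_le hps hq1 hle
              have h2 : p <+: q := by
                have := List.reverse_prefix.2 h1
                rwa [hp2, hq2] at this
              obtain ⟨z, hz⟩ := h2
              obtain ⟨P', hP'⟩ := hq1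
              rcases List.eq_nil_or_concat' z with rfl | ⟨z, e, rfl⟩
              · rw [List.append_nil] at hz
                rw [hz] at hlt; omega
              · apply hpw
                have h3 : (P' ++ p ++ z) ++ [e] = w ++ [c] := by
                  rw [← hP', ← hz]; simp
                have h4 := List.append_inj_left' h3 rfl
                exact ⟨P', z, h4⟩
            · have h1 : p <:+ q := List.suffix_of_suffix_length_le hps hq1 hle
              exact h1.eq_of_length_le hge
          · exfalso
            apply hpw
            have h3 : (P ++ p ++ S) ++ [e] = w ++ [c] := by rw [← hPS]; simp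
            exact ⟨P, S, List.append_inj_left' h3 rfl⟩
      · rintro (rfl | ⟨h1, h2⟩)
        · exact ⟨hq1.isInfix, hq2⟩
        · exact ⟨h1.trans ⟨[], [c], by simp⟩, h2⟩
    unfold Rich at ihw ⊢
    rw [hset, Set.ncard_insert_of_notMem hqw (palFactors_finite w), ihw]
    simp

theorem richWord_map {B : Type*} (ζ : A → B) (u : ℕ → A) (hu : Episturmian u) :
    RichWord (fun n => ζ (u n)) := by
  classical
  intro w hw
  have hL := epiLang hu
  obtain ⟨b, hb, _⟩ := exists_sep hL
  set M : Set (List B) := Im (Theta ζ (fun _ => 0)) {w | IsFactor u w} with hM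
  have hgood : ∀ N, GoodN N M := fun N => main N B _ hL ζ (fun _ => 0) (ζ b) (fun _ _ => rfl)
  have hfac : Fac M := Im_fac _ _
  have hext : Ext M := Im_ext (Theta_ne_nil _ _) hL.Ext
  have hwM : w ∈ M := by
    obtain ⟨i, n, rfl⟩ := hw
    refine ⟨(List.range n).map (fun k => u (i + k)), ⟨i, n, rfl⟩, ?_⟩
    have : ((List.range n).map (fun k => u (i + k))).flatMap (Theta ζ (fun _ => 0)) =
        (List.range n).map (fun k => ζ (u (i + k))) := by
      simp [Theta, List.flatMap_map]
      induction (List.range n) with
      | nil => rfl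
      | cons c l ih => simp [ih]
    rw [this]
  apply rich_of_CR
  intro r hr y hy hyr hyr' hlen hint
  have hrM : r ∈ M := hfac w hwM r hr
  obtain ⟨a, b, hab⟩ := hext r hrM
  obtain ⟨z, hz⟩ := hyr
  have hyr2 : y <+: r.reverse := by
    have := List.reverse_prefix.2 hyr'
    rwa [hy] at this
  obtain ⟨z', hz'⟩ := hyr2
  have hzne : z ≠ [] := by
    rintro rfl
    rw [List.append_nil] at hz
    rw [hz] at hlen; omega
  have hzne' : z' ≠ [] := by
    rintro rfl
    rw [List.append_nil] at hz'
    rw [hz', List.length_reverse] at hlen; omega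
  obtain ⟨a', z, rfl⟩ := List.exists_cons_of_ne_nil hzne
  obtain ⟨b', z', rfl⟩ := List.exists_cons_of_ne_nil hzne'
  exact (hgood (r.length + 2)).ret Set.univ y r a b a' b' hy trivial trivial trivial trivial
    ⟨z ++ [b], by rw [← hz]; simp⟩ ⟨z' ++ [a], by rw [← hz']; simp⟩
    (fun c _ d _ => hint c d) hab le_rfl

end Final

end Pool.Agent.Work.MP_8d80dd_co
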