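import Pool.Agent.Work.MP_8d80dd_co.Psi

set_option autoImplicit false

namespace Pool.Agent.Work.MP_8d80dd_co

open List

/-- consecutive letters of a set `T` enclose a palindrome (for words of length at most `N`). -/
def StarN {G : Type*} (N : ℕ) (M : Set (List G)) : Prop :=
  ∀ (T : Set G) (t t' : G) (y : List G), t ∈ T → t' ∈ T → (∀ c ∈ y, c ∉ T) →
    (t :: (y ++ [t'])) ∈ M → y.length + 2 ≤ N → y.reverse = y

/-- returns between consecutive occurrences of `T y T` are palindromes
(for words of length at most `N`). -/
def RetN {G : Type*} (N : ℕ) (M : Set (List G)) : Prop :=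
  ∀ (T : Set G) (y r : List G) (a b a' b' : G), y.reverse = y →
    a ∈ T → b ∈ T → a' ∈ T → b' ∈ T →
    (y ++ [a']) <+: (r ++ [b]) → (y ++ [b']) <+: (r.reverse ++ [a]) →
    (∀ c ∈ T, ∀ d ∈ T, ¬ (c :: (y ++ [d])) <:+: r) →
    (a :: (r ++ [b])) ∈ M → r.length + 2 ≤ N → r.reverse = r

structure GoodN {G : Type*} (N : ℕ) (M : Set (List G)) : Prop where
  star : StarN N M
  ret : RetN N M

/-- factors of images under a morphism -/
def Im {G H : Type*} (σ : G → List H) (M : Set (List G)) : Set (List H) :=
  {w | ∃ m ∈ M, w <:+: m.flatMap σ}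

def Fac {G : Type*} (M : Set (List G)) : Prop := ∀ m ∈ M, ∀ x, x <:+: m → x ∈ M

def Ext {G : Type*} (M : Set (List G)) : Prop := ∀ x ∈ M, ∃ e f, (e :: (x ++ [f])) ∈ M

/-- any two adjacent letters include `s` -/
def Sep {G : Type*} (s : G) (w : List G) : Prop := w.IsChain (fun c d => c = s ∨ d = s)

theorem isChain_sub {G : Type*} {R : G → G → Prop} {w x : List G} (h : w.IsChain R)
    (hx : x <:+: w) : x.IsChain R := by
  obtain ⟨P, S, rfl⟩ := hx
  rw [List.append_assoc] at h
  exact (h.right_of_append).left_of_append

theorem Sep.sub {G : Type*} {s : G} {w x : List G} (h : Sep s w) (hx : x <:+: w) : Sep s x :=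
  isChain_sub h hx

theorem Sep.reverse {G : Type*} {s : G} {w : List G} (h : Sep s w) : Sep s w.reverse := by
  unfold Sep at *
  rw [List.isChain_reverse]
  exact h.imp (fun a b h => h.symm)

theorem Sep.pair {G : Type*} {s : G} {c d : G} {P S : List G} (h : Sep s (P ++ c :: d :: S)) :
    c = s ∨ d = s := by
  have h2 : Sep s [c, d] := h.sub ⟨P, S, by simp⟩
  simpa [Sep] using h2

theorem Im_fac {G H : Type*} (σ : G → List H) (M : Set (List G)) : Fac (Im σ M) := by
  rintro m ⟨w, hw, h⟩ x hx
  exact ⟨w, hw, hx.trans h⟩

section
variable {G : Type*} [DecidableEq G] {s : G}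

theorem sep_psi (m : List G) : Sep s (psi s m) := by
  induction m with
  | nil => simp [Sep]
  | cons c m ih =>
    have key : Sep s (s :: psi s m) := by
      unfold Sep at *
      rw [List.isChain_cons]
      exact ⟨fun y _ => Or.inl rfl, ih⟩
    by_cases hc : c = s
    · subst hc
      rw [psi_cons_self]; exact key
    · rw [psi_cons_ne hc]
      unfold Sep at *
      rw [List.isChain_cons]
      refine ⟨fun y _ => Or.inl rfl, ?_⟩
      rw [List.isChain_cons]
      refine ⟨fun y hy => ?_, ih⟩
      right
      cases m with
      | nil => simp at hy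
      | cons d m =>
        by_cases hd : d = s
        · subst hd; simp at hy; exact hy.symm
        · rw [psi_cons_ne hd] at hy; simp at hy; exact hy.symm

theorem psi_eq_flatMap (m : List G) : m.flatMap (psiL s) = psi s m := rfl

theorem sep_of_mem_Im {M : Set (List G)} {w : List G} (h : w ∈ Im (psiL s) M) : Sep s w := by
  obtain ⟨m, _, hm⟩ := h
  exact (sep_psi m).sub hm

theorem Psi_split {r t z : List G} (h : Psi s r = t ++ s :: z) :
    ∃ y, y <+: r ∧ psi s y = t := by
  rcases List.eq_nil_or_concat' z with rfl | ⟨z', e, rfl⟩
  · refine ⟨r, List.prefix_rfl, ?_⟩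
    exact List.append_left_injective [s] h
  · have h2 : psi s r ++ [s] = (t ++ s :: z') ++ [e] := by
      rw [← Psi, h]; simp
    have h3 := List.append_inj_left' h2 rfl
    obtain ⟨m1, m2, rfl, h4, _⟩ := psi_split r _ _ h3
    exact ⟨m1, List.prefix_append _ _, h4⟩

theorem length_psi_of_mem {w : List G} {c : G} (hc : c ∈ w) (hcs : c ≠ s) :
    w.length + 1 ≤ (psi s w).length := by
  induction w with
  | nil => simp at hc
  | cons d w ih =>
    by_cases hd : d = s
    · subst hd
      rcases List.mem_cons.1 hc with rfl | hc
      · exact absurd rfl hcs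
      · have := ih hc; simp; omega
    · rw [psi_cons_ne hd]
      have := length_le_psi (s := s) w
      simp; omega

omit [DecidableEq G] in
theorem infix_peel {c d e g : G} {w r : List G} (h : (c :: (w ++ [d])) <:+: (e :: (r ++ [g]))) :
    w <:+: r := by
  obtain ⟨P, S, h⟩ := h
  rcases P with _ | ⟨p, P⟩
  · simp only [List.nil_append, List.cons_append, List.cons.injEq] at h
    obtain ⟨_, h⟩ := h
    rcases List.eq_nil_or_concat' S with rfl | ⟨S, q, rfl⟩
    · rw [List.append_nil] at h
      have := List.append_inj_left' h rfl
      rw [this]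
    · have h2 : ((w ++ [d]) ++ S) ++ [q] = r ++ [g] := by rw [← h]; simp
      have h3 := List.append_inj_left' h2 rfl
      exact ⟨[], [d] ++ S, by rw [← h3]; simp⟩
  · simp only [List.cons_append, List.append_assoc, List.cons.injEq] at h
    obtain ⟨_, h⟩ := h
    rcases List.eq_nil_or_concat' S with rfl | ⟨S, q, rfl⟩
    · have h2 : (P ++ c :: w) ++ [d] = r ++ [g] := by rw [← h]; simp
      have h3 := List.append_inj_left' h2 rfl
      exact ⟨P ++ [c], [], by rw [← h3]; simp⟩
    · have h2 : (P ++ c :: (w ++ [d] ++ S)) ++ [q] = r ++ [g] := by rw [← h]; simp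
      have h3 := List.append_inj_left' h2 rfl
      exact ⟨P ++ [c], [d] ++ S, by rw [← h3]; simp⟩

theorem reverse_eq_of_pal_psi {x : List G} (h : x.reverse = x) : (Psi s x).reverse = Psi s x := by
  rw [← Psi_reverse, h]

theorem pal_of_pal_psi {x : List G} (h : (Psi s x).reverse = Psi s x) : x.reverse = x := by
  rw [← Psi_reverse] at h
  exact Psi_injective h

theorem star_psi (N : ℕ) (M : Set (List G)) (fac : Fac M) (h : StarN N M) :
    StarN (N + 1) (Im (psiL s) M) := by
  intro T t t' y ht ht' hy hM hN
  have hsep : Sep s (t :: (y ++ [t'])) := sep_of_mem_Im hM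
  obtain ⟨m, hm, P, S, hmS⟩ := hM
  rcases y with _ | ⟨c, y⟩
  · rfl
  by_cases hsT : s ∈ T
  · -- y has no `s`
    rcases y with _ | ⟨d, y⟩
    · rfl
    · exfalso
      have h1 : c ≠ s := by rintro rfl; exact hy c (by simp) hsT
      have h2 : d ≠ s := by rintro rfl; exact hy d (by simp) hsT
      have := Sep.pair (P := [t]) (S := y ++ [t']) (c := c) (d := d) (by simpa using hsep)
      tauto
  · have hts : t ≠ s := by rintro rfl; exact hsT ht
    have hts' : t' ≠ s := by rintro rfl; exact hsT ht'
    have hc : c = s := by
      have := Sep.pair (P := []) (S := y ++ [t']) (c := t) (d := c) (by simpa using hsep)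
      tauto
    subst hc
    obtain ⟨y', e, he⟩ : ∃ y' e, c :: y = y' ++ [e] := by
      rcases List.eq_nil_or_concat' (c :: y) with h0 | ⟨y', e, h0⟩
      · simp at h0
      · exact ⟨y', e, h0⟩
    have hec : e = c := by
      have := Sep.pair (s := c) (P := t :: y') (S := []) (c := e) (d := t')
        (by rw [he] at hsep; simpa using hsep)
      tauto
    subst hec
    have hmS' : psi e m = P ++ (t :: ((e :: y) ++ (t' :: S))) := by
      rw [← psi_eq_flatMap, ← hmS]; simp
    obtain ⟨m1, x', m3, hm', hx'⟩ := psi_decode hmS' ⟨y', he⟩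
    have hxM : (t :: (x' ++ [t'])) ∈ M := by
      refine fac m hm _ ⟨m1, m3, ?_⟩
      rw [hm']; simp
    have hlen : x'.length < (e :: y).length := by
      rw [← hx']; exact length_lt_Psi x'
    have hx : x'.reverse = x' := by
      apply h T t t' x' ht ht' _ hxM (by omega)
      intro c hc
      apply hy
      rw [← hx']; exact mem_Psi hc
    rw [← hx']
    exact reverse_eq_of_pal_psi hx

theorem ret_psi (N : ℕ) (M : Set (List G)) (fac : Fac M) (ext : Ext M) (h : GoodN N M) :
    RetN (N + 1) (Im (psiL s) M) := by
  intro T y r a b a' b' hy ha hb ha' hb' hpre hsuf hint hM hN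
  have hsep : Sep s (a :: (r ++ [b])) := sep_of_mem_Im hM
  obtain ⟨m, hm, P, S, hmS⟩ := hM
  rw [psi_eq_flatMap] at hmS
  -- general facts
  have hyr : y <+: r := by
    have h1 : y <+: (r ++ [b]) := (List.prefix_append y [a']).trans hpre
    have hl := hpre.length_le
    exact List.prefix_of_prefix_length_le h1 (List.prefix_append r [b]) (by simpa using hl)
  have hyr' : y <+: r.reverse := by
    have h1 : y <+: (r.reverse ++ [a]) := (List.prefix_append y [b']).trans hsuf
    have hl := hsuf.length_le
    exact List.prefix_of_prefix_length_le h1 (List.prefix_append r.reverse [a]) (by simpa using hl)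
  have hsepr : Sep s r := hsep.sub ⟨[a], [b], by simp⟩
  rcases y with _ | ⟨c, y⟩
  · -- empty core
    rcases r with _ | ⟨x, r⟩
    · rfl
    rcases r with _ | ⟨z, r⟩
    · rfl
    have hxT : x ∈ T := by
      have : a' = x := by simpa using hpre
      rw [← this]; exact ha'
    have hzT : z ∉ T := by
      intro hz
      exact hint x hxT z hz ⟨[], r, by simp⟩
    have hxs : x = s := by
      have h1 := Sep.pair (P := [a]) (S := r ++ [b]) (c := x) (d := z) (by simpa using hsep)
      have h2 := Sep.pair (P := []) (S := z :: r ++ [b]) (c := a) (d := x) (by simpa using hsep)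
      by_contra hne
      have h3 : z = s := by tauto
      have h4 : a = s := by tauto
      exact hzT (by rw [h3, ← h4]; exact ha)
    subst hxs
    obtain ⟨r', e, he⟩ : ∃ r' e, x :: z :: r = r' ++ [e] := by
      rcases List.eq_nil_or_concat' (x :: z :: r) with h0 | ⟨y', e, h0⟩
      · simp at h0
      · exact ⟨y', e, h0⟩
    obtain ⟨r'', e', he'⟩ : ∃ r'' e', r' = r'' ++ [e'] := by
      rcases List.eq_nil_or_concat' r' with h0 | ⟨y', e, h0⟩
      · subst h0; simp at he
      · exact ⟨y', e, h0⟩
    have heT : e ∈ T := by
      have h1 : b' = e := by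
        rw [he] at hsuf
        simpa using hsuf
      rw [← h1]; exact hb'
    have heT' : e' ∉ T := by
      intro hz
      refine hint e' hz e heT ⟨r'', [], ?_⟩
      rw [he, he']; simp
    have hes : e = x := by
      have h1 := Sep.pair (s := x) (P := a :: r'') (S := [b]) (c := e') (d := e)
        (by rw [he, he'] at hsep; simpa using hsep)
      rcases h1 with h1 | h1
      · exact absurd (by rw [h1]; exact hxT) heT'
      · exact h1
    subst hes
    have hmS' : psi e m = P ++ (a :: ((e :: z :: r) ++ (b :: S))) := by
      rw [← hmS]; simp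
    obtain ⟨m1, x', m3, hm', hx'⟩ := psi_decode hmS' ⟨r', he⟩
    have hxM : (a :: (x' ++ [b])) ∈ M := by
      refine fac m hm _ ⟨m1, m3, ?_⟩
      rw [hm']; simp
    have hlen : x'.length < (e :: z :: r).length := by
      rw [← hx']; exact length_lt_Psi x'
    have hx : x'.reverse = x' := by
      apply h.star T a b x' ha hb _ hxM (by omega)
      intro c hc hcT
      obtain ⟨r1, r2, rfl⟩ := List.append_of_mem hc
      obtain ⟨t, ht⟩ := Psi_cons_head2 (s := e) c r2
      apply hint e hxT c hcT
      rw [← hx', Psi_append, ht]
      exact ⟨psi e r1, t, by simp⟩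
    rw [← hx']
    exact reverse_eq_of_pal_psi hx
  · by_cases hcs : c = s
    · subst hcs
      -- core starts and ends with `s`
      obtain ⟨rt, hrt⟩ := hyr
      obtain ⟨rt', hrt'⟩ := hyr'
      have hr1 : ∃ x, r = c :: x := ⟨_, hrt.symm⟩
      obtain ⟨x, hx⟩ := hr1
      have hr2 : ∃ t, c :: x = t ++ [c] := by
        refine ⟨(y ++ rt').reverse, ?_⟩
        rw [← hx, ← List.reverse_reverse r, ← hrt']; simp
      have hmS' : psi c m = P ++ (a :: ((c :: x) ++ (b :: S))) := by
        rw [← hmS, hx]; simp
      obtain ⟨m1, r', m3, hm', hr'⟩ := psi_decode hmS' hr2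
      rw [← hx] at hr'
      have hxM : (a :: (r' ++ [b])) ∈ M := by
        refine fac m hm _ ⟨m1, m3, ?_⟩
        rw [hm']; simp
      have hlen : r'.length < r.length := by
        rw [← hr']; exact length_lt_Psi r'
      -- decode the core
      obtain ⟨t, ht⟩ : ∃ t, c :: y = t ++ [c] := by
        refine ⟨y.reverse, ?_⟩
        rw [← hy]; simp
      have h1 : Psi c r' = t ++ c :: rt := by
        rw [hr', ← hrt, ht]; simp
      obtain ⟨y', _, hy'⟩ := Psi_split h1
      have hyy : Psi c y' = c :: y := by rw [Psi, hy', ht]
      have hpal : y'.reverse = y' := by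
        apply pal_of_pal_psi (s := c)
        rw [hyy]; exact hy
      have := h.ret T y' r' a b a' b' hpal ha hb ha' hb'
        (Psi_prefix_decode (s := c) _ _ _ _ (by rw [hyy, hr']; exact hpre))
        (Psi_prefix_decode (s := c) _ _ _ _ (by rw [hyy, Psi_reverse, hr']; exact hsuf))
        (by
          intro c' hc' d' hd' hin
          apply hint c' hc' d' hd'
          have := Psi_infix (s := c) hin
          rw [hyy, hr'] at this
          exact this)
        hxM (by omega)
      rw [← hr']
      exact reverse_eq_of_pal_psi this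
    · -- core starts with a letter different from `s`
      by_cases hry : r = c :: y
      · rw [hry]; exact hy
      obtain ⟨rt, hrt⟩ := hyr
      obtain ⟨rt', hrt'⟩ := hyr'
      have hrt0 : rt ≠ [] := by
        rintro rfl; apply hry; rw [← hrt]; simp
      have hrt0' : rt' ≠ [] := by
        rintro rfl
        apply hry
        have : r.reverse = (c :: y) := by rw [← hrt']; simp
        rw [← List.reverse_reverse r, this, hy]
      obtain ⟨f1, rt, rfl⟩ := List.exists_cons_of_ne_nil hrt0
      obtain ⟨f2, rt', rfl⟩ := List.exists_cons_of_ne_nil hrt0'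
      -- `a = s`
      have has : s = a := by
        have := Sep.pair (s := s) (P := []) (S := y ++ (f1 :: rt) ++ [b]) (c := a) (d := c)
          (by rw [← hrt] at hsep; simpa using hsep)
        tauto
      have hbs : s = b := by
        have hsep2 : Sep s (b :: (r.reverse ++ [a])) := by
          have := hsep.reverse; simpa using this
        have := Sep.pair (s := s) (P := []) (S := y ++ (f2 :: rt') ++ [a]) (c := b) (d := c)
          (by rw [← hrt'] at hsep2; simpa using hsep2)
        tauto
      obtain ⟨t, ht⟩ : ∃ t, c :: y = t ++ [c] := by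
        refine ⟨y.reverse, ?_⟩
        rw [← hy]; simp
      have hf1 : s = f1 := by
        have := Sep.pair (s := s) (P := t) (S := rt) (c := c) (d := f1)
          (by rw [← hrt, ht] at hsepr; simpa using hsepr)
        tauto
      have hf2 : f2 = s := by
        have := Sep.pair (s := s) (P := t) (S := rt') (c := c) (d := f2)
          (by
            have h2 := hsepr.reverse
            rw [← hrt', ht] at h2; simpa using h2)
        tauto
      subst has
      subst hbs
      subst hf1
      rw [hf2] at hrt'
      clear hf2
      have hmS' : psi s m = P ++ s :: (r ++ s :: S) := by rw [← hmS]; simp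
      obtain ⟨m1, m2, rfl, h1, h2⟩ := psi_split m _ _ hmS'
      have h2' : psi s m2 = (s :: r) ++ s :: S := by rw [h2]; simp
      obtain ⟨r', m3, rfl, h3, h4⟩ := psi_split m2 _ _ h2'
      have hr'M : r' ∈ M := fac _ hm _ ⟨m1, m3, by simp⟩
      have hPr : Psi s r' = s :: (r ++ [s]) := by rw [Psi, h3]; simp
      have h5 : psi s r' = (s :: c :: y) ++ s :: rt := by
        rw [h3, ← hrt]; simp
      obtain ⟨y', r3, hr3, h6, h7⟩ := psi_split r' _ _ h5
      have hPy : Psi s y' = s :: ((c :: y) ++ [s]) := by rw [Psi, h6]; simp
      have hpal : y'.reverse = y' := by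
        apply pal_of_pal_psi (s := s)
        rw [hPy, List.reverse_cons, List.reverse_append, hy]
        simp
      have h5' : psi s r'.reverse = (s :: c :: y) ++ s :: rt' := by
        have h9 : Psi s r'.reverse = s :: (r.reverse ++ [s]) := by
          rw [Psi_reverse, hPr]; simp
        have h10 : psi s r'.reverse ++ [s] = (s :: r.reverse) ++ [s] := by
          rw [← Psi, h9]; simp
        rw [List.append_left_injective [s] h10, ← hrt']; simp
      obtain ⟨y2, r4, hr4, h8, h9⟩ := psi_split r'.reverse _ _ h5'
      have hy2 : y2 = y' := by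
        apply Psi_injective (s := s)
        rw [Psi, Psi, h6, h8]
      subst hy2
      obtain ⟨e, f, hef⟩ := ext r' hr'M
      -- lengths
      have hr3ne : r3 ≠ [] := by
        rintro rfl; simp at h7
      have hlen : r'.length + 1 ≤ r.length := by
        have hc1 : c ∈ y2 := by
          by_contra hcn
          have : ∀ d ∈ y2, d ≠ c := fun d hd hdc => hcn (hdc ▸ hd)
          obtain ⟨m', hm'⟩ := psi_first (s := s) (m := y2) (b := c) (S := y) h6
          rw [hm'] at hcn; simp at hcn
        have hl1 := length_psi_of_mem (s := s) hc1 hcs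
        -- last letter of r3
        have hlast : ∃ z, r3 = z ++ [c] := by
          have h10 : (c :: y) ++ s :: rt = (y ++ s :: rt').reverse ++ [c] := by
            rw [hrt]
            have h11 : r.reverse.reverse = ((c :: y) ++ s :: rt').reverse := by rw [hrt']
            rw [List.reverse_reverse] at h11
            rw [h11]; simp
          rcases List.eq_nil_or_concat' rt with h12 | ⟨z, e', h12⟩
          · exfalso
            rw [h12] at h10
            have h13 := List.append_inj_right' h10 rfl
            simp only [List.cons.injEq, and_true] at h13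
            exact hcs h13.symm
          · rw [h12] at h10 h7
            have h14 : ((c :: y) ++ s :: z) ++ [e'] = (y ++ s :: rt').reverse ++ [c] := by
              rw [← h10]; simp
            have h13 := List.append_inj_right' h14 rfl
            simp only [List.cons.injEq, and_true] at h13
            rw [h13] at h7
            exact psi_last (s := s) (P := s :: z) (by rw [h7]; simp)
        obtain ⟨z, hz⟩ := hlast
        have hl2 := length_psi_of_mem (s := s) (w := r3) (c := c) (by rw [hz]; simp) hcs
        have hl3 : (psi s r').length = r.length + 1 := by rw [h3]; simp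
        rw [hr3, psi_append, List.length_append] at hl3
        rw [hr3, List.length_append]
        omega
      obtain ⟨g, r3', rfl⟩ := List.exists_cons_of_ne_nil hr3ne
      have hr4ne : r4 ≠ [] := by
        rintro rfl; simp at h9
      obtain ⟨g', r4', rfl⟩ := List.exists_cons_of_ne_nil hr4ne
      have := h.ret Set.univ y2 r' e f g g' hpal trivial trivial trivial trivial
        (by rw [hr3]; exact ⟨r3' ++ [f], by simp⟩)
        (by rw [hr4]; exact ⟨r4' ++ [e], by simp⟩)
        (by
          intro c' _ d' _ hin
          have h10 := Psi_infix (s := s) hin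
          rw [hPy, hPr] at h10
          have h11 := infix_peel h10
          exact hint s ha s ha h11)
        hef (by omega)
      have h12 : (Psi s r').reverse = Psi s r' := reverse_eq_of_pal_psi this
      rw [hPr] at h12
      simp only [List.reverse_cons, List.reverse_append, List.reverse_nil, List.nil_append,
        List.cons_append, List.cons.injEq, true_and] at h12
      exact List.append_left_injective [s] h12

end

end Pool.Agent.Work.MP_8d80dd_co
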