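import Pool.Agent.Work.MP_8d80dd_co.Good

set_option autoImplicit false

namespace Pool.Agent.Work.MP_8d80dd_co

open List

section Lam
variable {G : Type*} (al s : G)

/-- merging the block letters `inr k` to `al ^ (k+1)` -/
def lam : G ⊕ ℕ → List G
  | Sum.inl h => [h]
  | Sum.inr k => List.replicate (k + 1) al

def lamL (w : List (G ⊕ ℕ)) : List G := w.flatMap (lam al)

/-- admissible words over the block alphabet -/
structure Ok (w : List (G ⊕ ℕ)) : Prop where
  sep : Sep (Sum.inl s) w
  noal : Sum.inl al ∉ w

variable {al s}

@[simp] theorem lamL_nil : lamL al [] = [] := rfl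

theorem lamL_cons (c : G ⊕ ℕ) (w : List (G ⊕ ℕ)) : lamL al (c :: w) = lam al c ++ lamL al w := by
  simp [lamL]

theorem lamL_append (v w : List (G ⊕ ℕ)) : lamL al (v ++ w) = lamL al v ++ lamL al w := by
  simp [lamL]

@[simp] theorem lamL_cons_inl (h : G) (w : List (G ⊕ ℕ)) :
    lamL al (Sum.inl h :: w) = h :: lamL al w := by
  simp [lamL_cons, lam]

@[simp] theorem lamL_cons_inr (k : ℕ) (w : List (G ⊕ ℕ)) :
    lamL al (Sum.inr k :: w) = List.replicate (k + 1) al ++ lamL al w := by
  simp [lamL_cons, lam]

theorem lam_reverse (c : G ⊕ ℕ) : (lam al c).reverse = lam al c := by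
  cases c <;> simp [lam]

theorem lam_ne_nil (c : G ⊕ ℕ) : lam al c ≠ [] := by
  cases c <;> simp [lam]

theorem lamL_reverse (w : List (G ⊕ ℕ)) : lamL al w.reverse = (lamL al w).reverse := by
  induction w with
  | nil => simp
  | cons c w ih =>
    rw [List.reverse_cons, lamL_append, lamL_cons, lamL_cons, List.reverse_append, ih, lam_reverse]
    simp

theorem lamL_length (w : List (G ⊕ ℕ)) : w.length ≤ (lamL al w).length := by
  induction w with
  | nil => simp
  | cons c w ih =>
    cases c <;> simp <;> omega

theorem lamL_infix {v w : List (G ⊕ ℕ)} (h : v <:+: w) : lamL al v <:+: lamL al w := by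
  obtain ⟨P, S, rfl⟩ := h
  exact ⟨lamL al P, lamL al S, by simp [lamL_append]⟩

theorem Ok.sub {v w : List (G ⊕ ℕ)} (h : Ok al s w) (hv : v <:+: w) : Ok al s v :=
  ⟨h.sep.sub hv, fun hm => h.noal (hv.subset hm)⟩

theorem Ok.reverse {w : List (G ⊕ ℕ)} (h : Ok al s w) : Ok al s w.reverse :=
  ⟨h.sep.reverse, fun hm => h.noal (by simpa using hm)⟩

/-- the cut lemma -/
theorem lamL_cut (m : List (G ⊕ ℕ)) : ∀ (P Q : List G), lamL al m = P ++ Q →
    ((∀ P', P ≠ P' ++ [al]) ∨ (∀ Q', Q ≠ al :: Q')) →
    ∃ m1 m2, m = m1 ++ m2 ∧ lamL al m1 = P ∧ lamL al m2 = Q := by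
  induction m with
  | nil =>
    intro P Q h _
    have h' := h.symm
    simp only [lamL_nil, List.append_eq_nil_iff] at h'
    exact ⟨[], [], rfl, h'.1.symm, h'.2.symm⟩
  | cons c m ih =>
    intro P Q h hcut
    cases P with
    | nil => exact ⟨[], c :: m, rfl, rfl, by simpa using h⟩
    | cons p P =>
      cases c with
      | inl g =>
        simp only [lamL_cons_inl, List.cons_append, List.cons.injEq] at h
        have hcut' : (∀ P', P ≠ P' ++ [al]) ∨ (∀ Q', Q ≠ al :: Q') := by
          rcases hcut with h1 | h1
          · left
            intro P' hP'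
            exact h1 (p :: P') (by rw [hP']; simp)
          · exact Or.inr h1
        obtain ⟨m1, m2, h1, h2, h3⟩ := ih P Q h.2 hcut'
        exact ⟨Sum.inl g :: m1, m2, by simp [h1], by simp [h2, h.1], h3⟩
      | inr k =>
        rw [lamL_cons_inr] at h
        rcases List.append_eq_append_iff.1 h with ⟨as, h1, h2⟩ | ⟨bs, h1, h2⟩
        · have hcut' : (∀ P', as ≠ P' ++ [al]) ∨ (∀ Q', Q ≠ al :: Q') := by
            rcases hcut with h3 | h3
            · left
              intro P' hP'
              exact h3 (List.replicate (k + 1) al ++ P') (by rw [h1, hP']; simp)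
            · exact Or.inr h3
          obtain ⟨m1, m2, h4, h5, h6⟩ := ih as Q h2 hcut'
          exact ⟨Sum.inr k :: m1, m2, by simp [h4], by simp [h5, h1], h6⟩
        · rcases bs with _ | ⟨b0, bs⟩
          · rw [List.append_nil] at h1
            rw [List.nil_append] at h2
            exact ⟨[Sum.inr k], m, by simp, by simp [← h1], by simp [h2]⟩
          · exfalso
            have hb : b0 = al := by
              have : b0 ∈ List.replicate (k + 1) al := by rw [h1]; simp
              exact List.eq_of_mem_replicate this
            rcases List.eq_nil_or_concat' (p :: P) with h3 | ⟨P', e, h3⟩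
            · simp at h3
            have he : e = al := by
              have : e ∈ List.replicate (k + 1) al := by rw [h1, h3]; simp
              exact List.eq_of_mem_replicate this
            rcases hcut with h4 | h4
            · exact h4 P' (by rw [h3, he])
            · exact h4 (bs ++ lamL al m) (by rw [h2, hb]; simp)

/-- the tail after a block letter is empty or starts with `s` -/
theorem Ok.tail_inr {k : ℕ} {w : List (G ⊕ ℕ)} (h : Ok al s (Sum.inr k :: w)) :
    w = [] ∨ ∃ w', w = Sum.inl s :: w' := by
  cases w with
  | nil => exact Or.inl rfl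
  | cons d w =>
    right
    have := Sep.pair (P := []) (S := w) (c := (Sum.inr k : G ⊕ ℕ)) (d := d) (by simpa using h.sep)
    rcases this with h1 | h1
    · cases h1
    · exact ⟨w, by rw [h1]⟩

theorem lamL_injective (hs : s ≠ al) (v : List (G ⊕ ℕ)) : ∀ (w : List (G ⊕ ℕ)),
    Ok al s v → Ok al s w → lamL al v = lamL al w → v = w := by
  induction v with
  | nil =>
    intro w _ _ h
    cases w with
    | nil => rfl
    | cons c w => cases c <;> simp at h
  | cons c v ih =>
    intro w hv hw h
    cases w with
    | nil => cases c <;> simp at h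
    | cons d w =>
      have hv' : Ok al s v := hv.sub ⟨[c], [], by simp⟩
      have hw' : Ok al s w := hw.sub ⟨[d], [], by simp⟩
      cases c with
      | inl g =>
        cases d with
        | inl g' =>
          simp only [lamL_cons_inl, List.cons.injEq] at h
          rw [h.1, ih w hv' hw' h.2]
        | inr k =>
          exfalso
          simp only [lamL_cons_inl, lamL_cons_inr, List.replicate_succ, List.cons_append,
            List.cons.injEq] at h
          exact hv.noal (by rw [← h.1]; simp)
      | inr k =>
        cases d with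
        | inl g' =>
          exfalso
          simp only [lamL_cons_inl, lamL_cons_inr, List.replicate_succ, List.cons_append,
            List.cons.injEq] at h
          exact hw.noal (by rw [h.1]; simp)
        | inr k' =>
          have e1 := hv.tail_inr
          have e2 := hw.tail_inr
          rw [lamL_cons_inr, lamL_cons_inr] at h
          have key : ∀ (k k' : ℕ) (x y : List G), (x = [] ∨ ∃ x', x = s :: x') →
              List.replicate (k + 1) al ++ x = List.replicate (k' + 1) al ++ y → k' ≤ k := by
            intro k k' x y hx hxy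
            by_contra hlt
            push Not at hlt
            have h3 : List.replicate (k' + 1) al
                = List.replicate (k + 1) al ++ (al :: List.replicate (k' - k - 1) al) := by
              rw [← List.replicate_succ, ← List.replicate_add]
              congr 1; omega
            rw [h3, List.append_assoc] at hxy
            have h4 := List.append_cancel_left hxy
            rcases hx with rfl | ⟨x', rfl⟩
            · simp at h4
            · simp only [List.cons_append, List.cons.injEq] at h4
              exact hs h4.1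
          have f1 : lamL al v = [] ∨ ∃ x', lamL al v = s :: x' := by
            rcases e1 with rfl | ⟨v', rfl⟩
            · left; rfl
            · right; exact ⟨_, lamL_cons_inl _ _⟩
          have f2 : lamL al w = [] ∨ ∃ x', lamL al w = s :: x' := by
            rcases e2 with rfl | ⟨v', rfl⟩
            · left; rfl
            · right; exact ⟨_, lamL_cons_inl _ _⟩
          have hkk : k = k' := le_antisymm (key _ _ _ _ f2 h.symm) (key _ _ _ _ f1 h)
          subst hkk
          rw [ih w hv' hw' (List.append_cancel_left h)]

/-- letters whose neighbouring context contains `al^i c` with `c ∈ T` -/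
def Th (al s : G) (T : Set G) (i : ℕ) : Set (G ⊕ ℕ) :=
  {c | (∃ h, c = Sum.inl h ∧ i = 0 ∧ h ∈ T) ∨
    (∃ k, c = Sum.inr k ∧ ((k + 1 = i ∧ s ∈ T) ∨ (i + 1 ≤ k + 1 ∧ al ∈ T)))}

theorem PC1 {T : Set G} {i : ℕ} {m : List (G ⊕ ℕ)} {c : G} (hm : Ok al s m) (hs : s ≠ al)
    (hc : c ∈ T) (h : (List.replicate i al ++ [c]) <+: lamL al m) :
    ∃ c' m', m = c' :: m' ∧ c' ∈ Th al s T i := by
  cases m with
  | nil => simp at h
  | cons d m =>
    refine ⟨d, m, rfl, ?_⟩
    cases d with
    | inl g =>
      left
      refine ⟨g, rfl, ?_⟩
      cases i with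
      | zero =>
        simp at h
        exact ⟨rfl, by rw [← h]; exact hc⟩
      | succ i =>
        exfalso
        simp only [List.replicate_succ, List.cons_append, lamL_cons_inl, List.cons_prefix_cons] at h
        exact hm.noal (by rw [h.1]; simp)
    | inr k =>
      right
      refine ⟨k, rfl, ?_⟩
      have e1 := hm.tail_inr
      rw [lamL_cons_inr] at h
      rcases lt_trichotomy i (k + 1) with hlt | heq | hgt
      · right
        refine ⟨by omega, ?_⟩
        have h3 : List.replicate (k + 1) al
                = List.replicate i al ++ (al :: List.replicate (k - i) al) := by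
              rw [← List.replicate_succ, ← List.replicate_add]
              congr 1; omega
        rw [h3, List.append_assoc, List.prefix_append_right_inj] at h
        simp only [List.cons_append, List.cons_prefix_cons] at h
        rw [← h.1]; exact hc
      · left
        refine ⟨heq.symm, ?_⟩
        rw [heq, List.prefix_append_right_inj] at h
        rcases e1 with rfl | ⟨m', rfl⟩
        · simp at h
        · simp at h
          rw [← h]; exact hc
      · exfalso
        have h3 : List.replicate i al
                = List.replicate (k + 1) al ++ (al :: List.replicate (i - k - 2) al) := by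
              rw [← List.replicate_succ, ← List.replicate_add]
              congr 1; omega
        rw [h3, List.append_assoc, List.prefix_append_right_inj] at h
        rcases e1 with rfl | ⟨m', rfl⟩
        · simp at h
        · simp only [List.cons_append, lamL_cons_inl, List.cons_prefix_cons] at h
          exact hs h.1.symm

theorem PC2 {T : Set G} {i : ℕ} {m : List (G ⊕ ℕ)} {c : G ⊕ ℕ} (hm : Ok al s (c :: m))
    (hc : c ∈ Th al s T i) (hne : i = 0 ∨ m ≠ []) :
    ∃ d ∈ T, (List.replicate i al ++ [d]) <+: lamL al (c :: m) := by
  rcases hc with ⟨g, rfl, rfl, hg⟩ | ⟨k, rfl, ⟨rfl, h⟩ | ⟨h1, h⟩⟩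
  · exact ⟨g, hg, by simp⟩
  · refine ⟨s, h, ?_⟩
    rcases hne with h0 | h0
    · omega
    rcases hm.tail_inr with h1 | ⟨m', rfl⟩
    · exact absurd h1 h0
    · rw [lamL_cons_inr, List.prefix_append_right_inj]
      simp
  · refine ⟨al, h, ?_⟩
    have h3 : List.replicate (k + 1) al
                = List.replicate i al ++ (al :: List.replicate (k - i) al) := by
              rw [← List.replicate_succ, ← List.replicate_add]
              congr 1; omega
    rw [lamL_cons_inr, h3, List.append_assoc, List.prefix_append_right_inj]
    simp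

theorem star_lam (hs : s ≠ al) (N : ℕ) (M : Set (List (G ⊕ ℕ))) (fac : Fac M)
    (ok : ∀ w ∈ M, Ok al s w) (h : StarN N M) : StarN N (Im (lam al) M) := by
  intro T t t' y ht ht' hy hM hN
  obtain ⟨m, hm, P, S, hmS⟩ := hM
  change _ = lamL al m at hmS
  rcases y with _ | ⟨c, y⟩
  · rfl
  have hokm := ok m hm
  have h1 : lamL al m = (P ++ [t]) ++ ((c :: y) ++ t' :: S) := by rw [← hmS]; simp
  obtain ⟨m1, m2, rfl, h2, h3⟩ := lamL_cut m _ _ h1 (by
    by_cases hta : t = al
    · right
      intro Q' hQ
      simp only [List.cons_append, List.cons.injEq] at hQ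
      exact hy c (by simp) (by rw [hQ.1, ← hta]; exact ht)
    · left
      intro P' hP
      have := List.append_inj_right' hP rfl
      simp only [List.cons.injEq, and_true] at this
      exact hta this)
  obtain ⟨y', m3, rfl, h4, h5⟩ := lamL_cut m2 _ _ h3 (by
    by_cases hta : t' = al
    · left
      intro P' hP
      exact hy al (by rw [hP]; simp) (by rw [← hta]; exact ht')
    · right
      intro Q' hQ
      simp only [List.cons.injEq] at hQ
      exact hta hQ.1)
  have hok1 : Ok al s m1.reverse := (hokm.sub ⟨[], y' ++ m3, by simp⟩).reverse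
  have hok3 : Ok al s m3 := hokm.sub ⟨m1 ++ y', [], by simp⟩
  obtain ⟨a1, m1', hm1', ha1⟩ := PC1 (T := T) (i := 0) (c := t) hok1 hs ht (by
    rw [lamL_reverse, h2]; simp)
  obtain ⟨a3, m3', hm3', ha3⟩ := PC1 (T := T) (i := 0) (c := t') hok3 hs ht' (by
    rw [h5]; simp)
  have hm1'' : m1 = m1'.reverse ++ [a1] := by
    rw [← List.reverse_reverse m1, hm1']; simp
  have hyM : (a1 :: (y' ++ [a3])) ∈ M := by
    refine fac _ hm _ ⟨m1'.reverse, m3', ?_⟩
    rw [hm1'', hm3']; simp
  have hlen : y'.length ≤ (c :: y).length := by
    rw [← h4]; exact lamL_length y'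
  have hp := h (Th al s T 0) a1 a3 y' ha1 ha3 (by
    intro d hd hdT
    have hsub : lam al d <:+: (c :: y) := by
      obtain ⟨u, v, rfl⟩ := List.append_of_mem hd
      rw [← h4]
      exact ⟨lamL al u, lamL al v, by simp [lamL_append, lamL_cons]⟩
    rcases hdT with ⟨g, rfl, _, hg⟩ | ⟨k, rfl, ⟨h0, _⟩ | ⟨_, h0⟩⟩
    · exact hy g (hsub.subset (by simp [lam])) hg
    · omega
    · exact hy al (hsub.subset (by simp [lam])) h0) hyM (by omega)
  rw [← h4, ← lamL_reverse, hp]

end Lam

end Pool.Agent.Work.MP_8d80dd_co
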