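import Pool.Agent.Work.MP_8d80dd_co.Lam

set_option autoImplicit false

namespace Pool.Agent.Work.MP_8d80dd_co

open List

section Lam2
variable {G : Type*} {al s : G}

theorem SL {T : Set G} {i : ℕ} {r0' m3' : List (G ⊕ ℕ)} {b3 : G ⊕ ℕ} {y0 : List G} {a' : G}
    (hs : s ≠ al) (hok : Ok al s (r0' ++ b3 :: m3')) (ha' : a' ∈ T)
    (hy0 : ∀ P', y0 ≠ P' ++ [al]) (h1 : y0 <+: lamL al r0')
    (h2 : (y0 ++ (List.replicate i al ++ [a'])) <+: lamL al (r0' ++ b3 :: m3')) :
    ∃ y' a'', lamL al y' = y0 ∧ a'' ∈ Th al s T i ∧ (y' ++ [a'']) <+: (r0' ++ [b3]) := by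
  obtain ⟨z, hz⟩ := h1
  obtain ⟨y', z', rfl, h3, h4⟩ := lamL_cut r0' _ _ hz.symm (Or.inl hy0)
  rw [List.append_assoc, lamL_append, h3, List.prefix_append_right_inj] at h2
  have hok' : Ok al s (z' ++ b3 :: m3') := hok.sub ⟨y', [], by simp⟩
  obtain ⟨c', m', h5, h6⟩ := PC1 hok' hs ha' h2
  refine ⟨y', c', h3, h6, ?_⟩
  cases z' with
  | nil =>
    simp only [List.nil_append, List.cons.injEq] at h5
    rw [← h5.1]; simp
  | cons z0 z' =>
    simp only [List.cons_append, List.cons.injEq] at h5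
    rw [← h5.1]; simp

theorem R1 (hs : s ≠ al) (N : ℕ) (M : Set (List (G ⊕ ℕ))) (fac : Fac M)
    (ok : ∀ w ∈ M, Ok al s w) (h : RetN N M) {T : Set G} {i : ℕ} {y0 r0 : List G}
    {a b a' b' : G} (ha : a ∈ T) (hb : b ∈ T) (ha' : a' ∈ T) (hb' : b' ∈ T)
    (hy0 : y0.reverse = y0) (hy0al : ∀ P', y0 ≠ P' ++ [al])
    (hr0a : ∀ Q', r0 ≠ al :: Q') (hr0b : ∀ P', r0 ≠ P' ++ [al]) (hr0 : r0 ≠ [])
    (hpre : (y0 ++ (List.replicate i al ++ [a'])) <+: (r0 ++ (List.replicate i al ++ [b])))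
    (hpre0 : y0 <+: r0)
    (hsuf : (y0 ++ (List.replicate i al ++ [b'])) <+: (r0.reverse ++ (List.replicate i al ++ [a])))
    (hsuf0 : y0 <+: r0.reverse)
    (hint : ∀ c ∈ T, ∀ d ∈ T,
      ¬ (c :: (List.replicate i al ++ (y0 ++ (List.replicate i al ++ [d])))) <:+: r0)
    {m : List (G ⊕ ℕ)} (hm : m ∈ M) {P S : List G}
    (hmS : P ++ (a :: (List.replicate i al ++ (r0 ++ (List.replicate i al ++ (b :: S)))))
      = lamL al m) (hN : r0.length + 2 ≤ N) : r0.reverse = r0 := by
  have hokm := ok m hm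
  have h1 : lamL al m = (P ++ (a :: List.replicate i al)) ++
      (r0 ++ (List.replicate i al ++ (b :: S))) := by rw [← hmS]; simp
  obtain ⟨m1, m2, rfl, h2, h3⟩ := lamL_cut m _ _ h1 (by
    right
    intro Q' hQ
    obtain ⟨x, r0', rfl⟩ := List.exists_cons_of_ne_nil hr0
    simp only [List.cons_append, List.cons.injEq] at hQ
    exact hr0a r0' (by rw [hQ.1]))
  obtain ⟨r', m3, rfl, h4, h5⟩ := lamL_cut m2 _ _ h3 (Or.inl hr0b)
  have hok1 : Ok al s m1.reverse := (hokm.sub ⟨[], r' ++ m3, by simp⟩).reverse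
  have hok3 : Ok al s m3 := hokm.sub ⟨m1 ++ r', [], by simp⟩
  have hokr : Ok al s r' := hokm.sub ⟨m1, m3, by simp⟩
  have e1 : (List.replicate i al ++ [a]) <+: lamL al m1.reverse := by
    rw [lamL_reverse, h2]
    simp
  have e3 : (List.replicate i al ++ [b]) <+: lamL al m3 := by
    rw [h5]; simp
  obtain ⟨a1, m1', hm1', ha1⟩ := PC1 hok1 hs ha e1
  obtain ⟨a3, m3', hm3', ha3⟩ := PC1 hok3 hs hb e3
  have hm1'' : m1 = m1'.reverse ++ [a1] := by
    rw [← List.reverse_reverse m1, hm1']; simp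
  -- start pattern
  have hokx : Ok al s (r' ++ a3 :: m3') := by
    rw [← hm3']; exact hokm.sub ⟨m1, [], by simp⟩
  obtain ⟨y', a'', hy', ha'', hp1⟩ := SL (i := i) hs hokx ha' hy0al (by rw [h4]; exact hpre0) (by
    rw [← hm3', lamL_append, h4, h5]
    refine hpre.trans ?_
    simp)
  have hokx2 : Ok al s (r'.reverse ++ a1 :: m1') := by
    rw [← hm1']
    have : Ok al s (m1 ++ r') := hokm.sub ⟨[], m3, by simp⟩
    simpa using this.reverse
  obtain ⟨y2, b'', hy2, hb'', hp2⟩ := SL (i := i) hs hokx2 hb' hy0al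
    (by rw [lamL_reverse, h4]; exact hsuf0) (by
    rw [← hm1', lamL_append, lamL_reverse, lamL_reverse, h4, h2]
    refine hsuf.trans ?_
    simp)
  have hoky' : Ok al s y' := by
    have : y' <+: r' := by
      have h6 : y' <+: (r' ++ [a3]) := (List.prefix_append y' [a'']).trans hp1
      have hl := hp1.length_le
      exact List.prefix_of_prefix_length_le h6 (List.prefix_append r' [a3]) (by simpa using hl)
    exact hokr.sub this.isInfix
  have hoky2 : Ok al s y2 := by
    have : y2 <+: r'.reverse := by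
      have h6 : y2 <+: (r'.reverse ++ [a1]) := (List.prefix_append y2 [b'']).trans hp2
      have hl := hp2.length_le
      exact List.prefix_of_prefix_length_le h6 (List.prefix_append r'.reverse [a1])
        (by simpa using hl)
    exact hokr.reverse.sub this.isInfix
  have hyy : y2 = y' := lamL_injective hs _ _ hoky2 hoky' (by rw [hy2, hy'])
  subst hyy
  have hpal : y2.reverse = y2 := by
    apply lamL_injective hs _ _ hoky2.reverse hoky2
    rw [lamL_reverse, hy2, hy0]
  have hrM : (a1 :: (r' ++ [a3])) ∈ M := by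
    refine fac _ hm _ ⟨m1'.reverse, m3', ?_⟩
    rw [hm1'', hm3']; simp
  have hlen : r'.length ≤ r0.length := by
    rw [← h4]; exact lamL_length r'
  have hres := h (Th al s T i) y2 r' a1 a3 a'' b'' hpal ha1 ha3 ha'' hb'' hp1 hp2 (by
    intro c hc d hd hin
    obtain ⟨u, v, huv⟩ := hin
    have hr'' : r' = (u ++ [c]) ++ (y2 ++ (d :: v)) := by rw [← huv]; simp
    have hok4 : Ok al s (d :: v) := hokr.sub ⟨u ++ [c] ++ y2, [], by rw [hr'']; simp⟩
    have hok5 : Ok al s (c :: u.reverse) := by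
      have : Ok al s (u ++ [c]) := hokr.sub ⟨[], y2 ++ d :: v, by rw [hr'']; simp⟩
      simpa using this.reverse
    obtain ⟨d', hd', hd2⟩ := PC2 hok4 hd (by
      by_contra hcon
      push Not at hcon
      obtain ⟨hi, rfl⟩ := hcon
      rcases hd with ⟨g, rfl, h0, _⟩ | ⟨k, rfl, _⟩
      · exact hi h0
      · apply hr0b (lamL al (u ++ [c] ++ y2) ++ List.replicate k al)
        have e8 : r' = (u ++ [c] ++ y2) ++ [Sum.inr k] := by rw [hr'']; simp
        rw [← h4, e8, lamL_append]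
        simp [List.replicate_succ'])
    obtain ⟨c', hc', hc2⟩ := PC2 hok5 hc (by
      by_contra hcon
      push Not at hcon
      obtain ⟨hi, hu⟩ := hcon
      have hu' : u = [] := by simpa using hu
      subst hu'
      rcases hc with ⟨g, rfl, h0, _⟩ | ⟨k, rfl, _⟩
      · exact hi h0
      · apply hr0a (List.replicate k al ++ lamL al (y2 ++ d :: v))
        rw [← h4, hr'']
        simp [lamL_append, List.replicate_succ])
    apply hint c' hc' d' hd'
    obtain ⟨u1, hu1⟩ := hc2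
    obtain ⟨v1, hv1⟩ := hd2
    have hu2 : lamL al (u ++ [c]) = u1.reverse ++ (c' :: List.replicate i al) := by
      have : lamL al (c :: u.reverse) = (lamL al (u ++ [c])).reverse := by
        rw [← lamL_reverse]; simp
      rw [this] at hu1
      rw [← List.reverse_reverse (lamL al (u ++ [c])), ← hu1]
      simp
    refine ⟨u1.reverse, v1, ?_⟩
    have e7 : lamL al (u ++ [c] ++ (y2 ++ d :: v)) =
        lamL al (u ++ [c]) ++ (lamL al y2 ++ lamL al (d :: v)) := by
      rw [lamL_append (u ++ [c]), lamL_append y2]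
    rw [← h4, hr'', e7, hu2, hy2, ← hv1]
    simp) hrM (by omega)
  rw [← h4, ← lamL_reverse, hres]

end Lam2

end Pool.Agent.Work.MP_8d80dd_co
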