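import Pool.Agent.Work.MP_8d80dd_co.Lam2

set_option autoImplicit false

namespace Pool.Agent.Work.MP_8d80dd_co

open List

section Lam3
variable {G : Type*} {al s : G}

/-- admissible adjacency in the merged words -/
def Adj (al s : G) (w : List G) : Prop :=
  w.IsChain (fun c d => c = s ∨ d = s ∨ (c = al ∧ d = al))

theorem Adj.pair {c d : G} {P S : List G} (h : Adj al s (P ++ c :: d :: S)) :
    c = s ∨ d = s ∨ (c = al ∧ d = al) := by
  have h2 : Adj al s [c, d] := isChain_sub h ⟨P, S, by simp⟩
  simpa [Adj] using h2

theorem adj_replicate (k : ℕ) : Adj al s (List.replicate k al) := by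
  induction k with
  | zero => simp [Adj]
  | succ k ih =>
    rw [List.replicate_succ]
    unfold Adj at *
    rw [List.isChain_cons]
    refine ⟨fun y hy => ?_, ih⟩
    have : y ∈ List.replicate k al := List.mem_of_mem_head? hy
    right; right
    exact ⟨rfl, List.eq_of_mem_replicate this⟩

theorem adj_lamL {m : List (G ⊕ ℕ)} (h : Ok al s m) : Adj al s (lamL al m) := by
  induction m with
  | nil => simp [Adj]
  | cons c m ih =>
    have ih' := ih (h.sub ⟨[c], [], by simp⟩)
    cases c with
    | inl g =>
      rw [lamL_cons_inl]
      unfold Adj at *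
      rw [List.isChain_cons]
      refine ⟨fun y hy => ?_, ih'⟩
      cases m with
      | nil => simp at hy
      | cons d m =>
        have hp := Sep.pair (P := []) (S := m) (c := (Sum.inl g : G ⊕ ℕ)) (d := d)
          (by simpa using h.sep)
        rcases hp with hp | hp
        · left; exact Sum.inl_injective hp
        · right; left
          rw [hp] at hy
          simp at hy
          exact hy.symm
    | inr k =>
      rcases h.tail_inr with rfl | ⟨m', rfl⟩
      · simp only [lamL_cons_inr, lamL_nil, List.append_nil]
        exact adj_replicate _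
      · rw [lamL_cons_inr]
        unfold Adj at *
        rw [List.isChain_append]
        refine ⟨adj_replicate (k + 1), ih', ?_⟩
        intro x _ y hy
        right; left
        simp at hy
        exact hy.symm

theorem side {T : Set G} {i p : ℕ} {a' : G} {x : List G} (hs : s ≠ al) (ha' : a' ∈ T)
    (h : (List.replicate i al ++ [a']) <+: (List.replicate p al ++ s :: x))
    (hint : ∀ c ∈ T, ∀ d ∈ T,
      ¬ (c :: (List.replicate i al ++ [d])) <:+: (List.replicate p al ++ [s])) :
    (s ∈ T → p = i) ∧ (s ∉ T → al ∈ T → p = i + 1) := by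
  have hle : i ≤ p := by
    by_contra hlt
    push Not at hlt
    have h3 : List.replicate i al
        = List.replicate p al ++ (al :: List.replicate (i - p - 1) al) := by
      rw [← List.replicate_succ, ← List.replicate_add]
      congr 1; omega
    rw [h3, List.append_assoc, List.prefix_append_right_inj] at h
    simp only [List.cons_append, List.cons_prefix_cons] at h
    exact hs h.1.symm
  constructor
  · intro hsT
    by_contra hne
    have hlt : i < p := lt_of_le_of_ne hle (fun h => hne h.symm)
    have h3 : List.replicate p al
        = List.replicate i al ++ (al :: List.replicate (p - i - 1) al) := by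
      rw [← List.replicate_succ, ← List.replicate_add]
      congr 1; omega
    rw [h3, List.append_assoc, List.prefix_append_right_inj] at h
    simp only [List.cons_append, List.cons_prefix_cons] at h
    apply hint al (by rw [← h.1]; exact ha') s hsT
    have h4 : List.replicate p al
        = List.replicate (p - i - 1) al ++ (al :: List.replicate i al) := by
      rw [← List.replicate_succ, ← List.replicate_add]
      congr 1; omega
    exact ⟨List.replicate (p - i - 1) al, [], by rw [h4]; simp⟩
  · intro hsT halT
    have hlt : i < p := by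
      rcases Nat.lt_or_ge i p with h0 | h0
      · exact h0
      exfalso
      have h1 : i = p := le_antisymm hle h0
      rw [h1, List.prefix_append_right_inj] at h
      simp only [List.cons_prefix_cons, List.nil_prefix, and_true] at h
      exact hsT (by rw [← h]; exact ha')
    by_contra hne
    have h5 : i + 2 ≤ p := by omega
    apply hint al halT al halT
    have h4 : List.replicate p al
        = List.replicate (p - i - 2) al ++ ((al :: List.replicate i al) ++ [al]) := by
      rw [← List.replicate_succ, ← List.replicate_succ', ← List.replicate_add]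
      congr 1; omega
    exact ⟨List.replicate (p - i - 2) al, [s], by rw [h4]; simp⟩

theorem R2 (hs : s ≠ al) (N : ℕ) (M : Set (List (G ⊕ ℕ))) (fac : Fac M)
    (ok : ∀ w ∈ M, Ok al s w) (h : StarN N M) {T : Set G} {i p q : ℕ} {r1 : List G}
    {a b a' b' : G} (ha : a ∈ T) (hb : b ∈ T) (ha' : a' ∈ T) (hb' : b' ∈ T)
    (hr1a : ∃ x, r1 = s :: x) (hr1b : ∃ x, r1 = x ++ [s]) (hp : 1 ≤ p) (hq : 1 ≤ q)
    (hpre : (List.replicate i al ++ [a']) <+:
      (List.replicate p al ++ (r1 ++ (List.replicate q al ++ [b]))))
    (hsuf : (List.replicate i al ++ [b']) <+: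
      (List.replicate q al ++ (r1.reverse ++ (List.replicate p al ++ [a]))))
    (hint : ∀ c ∈ T, ∀ d ∈ T, ¬ (c :: (List.replicate i al ++ [d])) <:+:
      (List.replicate p al ++ (r1 ++ List.replicate q al)))
    {m : List (G ⊕ ℕ)} (hm : m ∈ M) {P S : List G}
    (hmS : P ++ (a :: (List.replicate p al ++ (r1 ++ (List.replicate q al ++ (b :: S)))))
      = lamL al m) (hN : r1.length + 2 ≤ N) : p = q ∧ r1.reverse = r1 := by
  have hokm := ok m hm
  obtain ⟨x, hx⟩ := hr1a
  obtain ⟨x', hx'⟩ := hr1b
  have hadj := adj_lamL hokm
  rw [← hmS] at hadj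
  obtain ⟨p, rfl⟩ : ∃ p', p = p' + 1 := ⟨p - 1, by omega⟩
  obtain ⟨q, rfl⟩ : ∃ p', q = p' + 1 := ⟨q - 1, by omega⟩
  have haa : a = s ∨ a = al := by
    have := Adj.pair (P := P) (c := a) (d := al)
      (S := List.replicate p al ++ (r1 ++ (List.replicate (q + 1) al ++ (b :: S))))
      (by rw [List.replicate_succ] at hadj; simpa using hadj)
    rcases this with h1 | h1 | h1
    · exact Or.inl h1
    · exact absurd h1.symm hs
    · exact Or.inr h1.1
  have hbb : b = s ∨ b = al := by
    have := Adj.pair (P := P ++ (a :: (List.replicate (p + 1) al ++ (r1 ++ List.replicate q al))))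
      (c := al) (d := b) (S := S)
      (by rw [List.replicate_succ' (n := q)] at hadj; simpa using hadj)
    rcases this with h1 | h1 | h1
    · exact absurd h1.symm hs
    · exact Or.inl h1
    · exact Or.inr h1.2
  have hside1 := side (i := i) (p := p + 1) hs ha' (x := x ++ (List.replicate (q + 1) al ++ [b]))
    (by rw [hx] at hpre; simpa using hpre) (by
      intro c hc d hd hin
      refine hint c hc d hd (hin.trans ?_)
      rw [hx]
      exact ⟨[], x ++ List.replicate (q + 1) al, by simp⟩)
  have hrx : r1.reverse = s :: x'.reverse := by rw [hx']; simp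
  have hside2 := side (i := i) (p := q + 1) hs hb' (x := x'.reverse ++ (List.replicate (p + 1) al ++ [a]))
    (by rw [hrx] at hsuf; simpa using hsuf) (by
      intro c hc d hd hin
      refine hint d hd c hc ?_
      have h1 : (d :: (List.replicate i al ++ [c])) <:+: (s :: List.replicate (q + 1) al) := by
        have := List.reverse_infix.2 hin
        simpa using this
      refine h1.trans ?_
      rw [hx']
      exact ⟨List.replicate (p + 1) al ++ x', [], by simp⟩)
  -- decode
  have h1 : lamL al m = (P ++ (a :: List.replicate (p + 1) al)) ++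
      (r1 ++ (List.replicate (q + 1) al ++ (b :: S))) := by rw [← hmS]; simp
  obtain ⟨m1, m2, rfl, h2, h3⟩ := lamL_cut m _ _ h1 (by
    right
    intro Q' hQ
    rw [hx] at hQ
    simp only [List.cons_append, List.cons.injEq] at hQ
    exact hs hQ.1)
  obtain ⟨r', m3, rfl, h4, h5⟩ := lamL_cut m2 _ _ h3 (by
    left
    intro P' hP
    rw [hx'] at hP
    have := List.append_inj_right' hP rfl
    simp only [List.cons.injEq, and_true] at this
    exact hs this)
  have hok1 : Ok al s m1.reverse := (hokm.sub ⟨[], r' ++ m3, by simp⟩).reverse
  have hok3 : Ok al s m3 := hokm.sub ⟨m1 ++ r', [], by simp⟩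
  have hokr : Ok al s r' := hokm.sub ⟨m1, m3, by simp⟩
  -- the key claim, for a suitable set of block letters
  have key : ∀ (T' : Set G) (j : ℕ) (c1 c3 : G), 1 ≤ j → c1 ∈ T' → c3 ∈ T' →
      (List.replicate j al ++ [c1]) <+: lamL al m1.reverse →
      (List.replicate j al ++ [c3]) <+: lamL al m3 →
      (∀ d ∈ T', ¬ (s :: (List.replicate j al ++ [d])) <:+: r1) →
      r1.reverse = r1 := by
    intro T' j c1 c3 hj hc1 hc3 e1 e3 hno
    obtain ⟨a1, m1', hm1', ha1⟩ := PC1 hok1 hs hc1 e1
    obtain ⟨a3, m3', hm3', ha3⟩ := PC1 hok3 hs hc3 e3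
    have hm1'' : m1 = m1'.reverse ++ [a1] := by
      rw [← List.reverse_reverse m1, hm1']; simp
    have hrM : (a1 :: (r' ++ [a3])) ∈ M := by
      refine fac _ hm _ ⟨m1'.reverse, m3', ?_⟩
      rw [hm1'', hm3']; simp
    have hlen : r'.length ≤ r1.length := by
      rw [← h4]; exact lamL_length r'
    have hres := h (Th al s T' j) a1 a3 r' ha1 ha3 (by
      intro c hc hcT
      obtain ⟨k, rfl⟩ : ∃ k, c = Sum.inr k := by
        rcases hcT with ⟨g, rfl, h0, _⟩ | ⟨k, rfl, _⟩
        · omega
        · exact ⟨k, rfl⟩
      obtain ⟨u, v, huv⟩ := List.append_of_mem hc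
      have hv : v ≠ [] := by
        rintro rfl
        have : r1 = (lamL al u ++ List.replicate k al) ++ [al] := by
          rw [← h4, huv, lamL_append]
          simp [List.replicate_succ']
        rw [hx'] at this
        have := List.append_inj_right' this rfl
        simp only [List.cons.injEq, and_true] at this
        exact hs this
      have hu : u ≠ [] := by
        rintro rfl
        have : r1 = al :: (List.replicate k al ++ lamL al v) := by
          rw [← h4, huv]
          simp [List.replicate_succ]
        rw [hx] at this
        simp only [List.cons.injEq] at this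
        exact hs this.1
      rcases List.eq_nil_or_concat' u with h6 | ⟨u', e, rfl⟩
      · exact hu h6
      have he : e = Sum.inl s := by
        have := Sep.pair (P := u') (S := v) (c := e) (d := (Sum.inr k : G ⊕ ℕ))
          (by have := hokr.sep; rw [huv] at this; simpa using this)
        rcases this with h6 | h6
        · exact h6
        · cases h6
      subst he
      have hok4 : Ok al s (Sum.inr k :: v) := hokr.sub ⟨u' ++ [Sum.inl s], [], by rw [huv]; simp⟩
      obtain ⟨d, hd, hd2⟩ := PC2 hok4 hcT (Or.inr hv)
      apply hno d hd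
      obtain ⟨v1, hv1⟩ := hd2
      refine ⟨lamL al u', v1, ?_⟩
      rw [← h4, huv, lamL_append, lamL_append, ← hv1]
      simp) hrM (by omega)
    rw [← h4, ← lamL_reverse, hres]
  by_cases hsT : s ∈ T
  · have hp1 := hside1.1 hsT
    have hq1 := hside2.1 hsT
    refine ⟨by omega, ?_⟩
    refine key T i a b (by omega) ha hb ?_ ?_ ?_
    · rw [lamL_reverse, h2, hp1]; simp
    · rw [h5, hq1]; simp
    · intro d hd hin
      refine hint s hsT d hd (hin.trans ⟨List.replicate (p + 1) al, List.replicate (q + 1) al, by simp⟩)
  · have haal : a = al := by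
      rcases haa with h6 | h6
      · exact absurd (by rw [← h6]; exact ha) hsT
      · exact h6
    have hbal : b = al := by
      rcases hbb with h6 | h6
      · exact absurd (by rw [← h6]; exact hb) hsT
      · exact h6
    have halT : al ∈ T := by rw [← haal]; exact ha
    have hp1 := hside1.2 hsT halT
    have hq1 := hside2.2 hsT halT
    refine ⟨by omega, ?_⟩
    refine key {al} (i + 1) al al (by omega) rfl rfl ?_ ?_ ?_
    · rw [lamL_reverse, h2, hp1, haal]; simp
    · rw [h5, hq1, hbal]; simp
    · intro d hd hin
      have hd' : d = al := hd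
      rw [hd'] at hin
      refine hint al halT al halT ?_
      refine List.IsInfix.trans ?_ (hin.trans ⟨List.replicate (p + 1) al, List.replicate (q + 1) al, by simp⟩)
      exact ⟨[s], [], by simp [List.replicate_succ]⟩

end Lam3

end Pool.Agent.Work.MP_8d80dd_co
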