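import Pool.Agent.Work.MP_8d80dd_co.Lam3

set_option autoImplicit false

namespace Pool.Agent.Work.MP_8d80dd_co

open List

section Lam4
variable {G : Type*} {al s : G}

theorem decomp_left (al : G) (r : List G) : ∃ p r2, r = List.replicate p al ++ r2 ∧
    (r2 = [] ∨ ∃ x r3, r2 = x :: r3 ∧ x ≠ al) := by
  induction r with
  | nil => exact ⟨0, [], by simp, Or.inl rfl⟩
  | cons c r ih =>
    by_cases hc : c = al
    · obtain ⟨p, r2, h1, h2⟩ := ih
      exact ⟨p + 1, r2, by rw [h1, hc, List.replicate_succ]; simp, h2⟩
    · exact ⟨0, c :: r, by simp, Or.inr ⟨c, r, rfl, hc⟩⟩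

theorem decomp (al : G) (r : List G) : (∃ n, r = List.replicate n al) ∨
    ∃ p q r1, r = List.replicate p al ++ (r1 ++ List.replicate q al) ∧
      (∃ x u, r1 = x :: u ∧ x ≠ al) ∧ (∃ x u, r1 = u ++ [x] ∧ x ≠ al) := by
  obtain ⟨p, r2, h1, h2⟩ := decomp_left al r
  rcases h2 with rfl | ⟨x, r3, rfl, hx⟩
  · left; exact ⟨p, by simpa using h1⟩
  · right
    obtain ⟨q, r4, h3, h4⟩ := decomp_left al (x :: r3).reverse
    have h5 : x :: r3 = r4.reverse ++ List.replicate q al := by
      rw [← List.reverse_reverse (x :: r3), h3]; simp
    rcases h4 with rfl | ⟨z, r5, rfl, hz⟩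
    · exfalso
      have : x ∈ List.replicate q al := by
        have h6 : x ∈ x :: r3 := by simp
        rw [h5] at h6; simpa using h6
      exact hx (List.eq_of_mem_replicate this)
    · refine ⟨p, q, (z :: r5).reverse, by rw [h1, h5], ?_, ⟨z, r5.reverse, by simp, hz⟩⟩
      rcases h6 : (z :: r5).reverse with _ | ⟨w, u⟩
      · simp at h6
      · rw [h6] at h5
        simp only [List.cons_append, List.cons.injEq] at h5
        exact ⟨w, u, rfl, by rw [← h5.1]; exact hx⟩

theorem run_prefix {i p : ℕ} {x z : G} {u v : List G} (hx : x ≠ al) (hz : z ≠ al)
    (h : (List.replicate i al ++ x :: u) <+: (List.replicate p al ++ z :: v)) :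
    i = p ∧ (x :: u) <+: (z :: v) := by
  rcases lt_trichotomy i p with hlt | heq | hgt
  · exfalso
    have h3 : List.replicate p al
        = List.replicate i al ++ (al :: List.replicate (p - i - 1) al) := by
      rw [← List.replicate_succ, ← List.replicate_add]
      congr 1; omega
    rw [h3, List.append_assoc, List.prefix_append_right_inj] at h
    simp only [List.cons_append, List.cons_prefix_cons] at h
    exact hx h.1
  · subst heq
    rw [List.prefix_append_right_inj] at h
    exact ⟨rfl, h⟩
  · exfalso
    have h3 : List.replicate i al
        = List.replicate p al ++ (al :: List.replicate (i - p - 1) al) := by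
      rw [← List.replicate_succ, ← List.replicate_add]
      congr 1; omega
    rw [h3, List.append_assoc, List.prefix_append_right_inj] at h
    simp only [List.cons_append, List.cons_prefix_cons] at h
    exact hz h.1.symm

/-- one side of the empty core case -/
theorem empty_side {T : Set G} {p : ℕ} {r1 : List G} {a b a' b' : G} (hs : s ≠ al)
    (hb : b ∈ T) (ha' : a' ∈ T) (hb' : b' ∈ T)
    (hr1a : ∃ x u, r1 = x :: u ∧ x ≠ al) (hr1b : ∃ x u, r1 = u ++ [x] ∧ x ≠ al)
    (hp : 1 ≤ p)
    (hadj : Adj al s (a :: (List.replicate p al ++ (r1 ++ [b]))))
    (hpre : [a'] <+: (List.replicate p al ++ (r1 ++ [b])))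
    (hsuf : [b'] <+: ((List.replicate p al ++ r1).reverse ++ [a]))
    (hint : ∀ c ∈ T, ∀ d ∈ T, ¬ [c, d] <:+: (List.replicate p al ++ r1)) : False := by
  obtain ⟨x, u, hx, hxal⟩ := hr1a
  obtain ⟨z, v, hz, hzal⟩ := hr1b
  obtain ⟨p, rfl⟩ : ∃ p', p = p' + 1 := ⟨p - 1, by omega⟩
  have halT : al ∈ T := by
    have : a' = al := by
      rw [List.replicate_succ] at hpre
      simpa using hpre
    rw [← this]; exact ha'
  have hxs : x = s := by
    have := Adj.pair (P := a :: List.replicate p al) (c := al) (d := x) (S := u ++ [b])
      (by rw [List.replicate_succ', hx] at hadj; simpa using hadj)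
    rcases this with h1 | h1 | h1
    · exact absurd h1.symm hs
    · exact h1
    · exact absurd h1.2 hxal
  have hsT : s ∉ T := by
    intro hsT
    apply hint al halT s hsT
    refine ⟨List.replicate p al, u, ?_⟩
    rw [List.replicate_succ', hx, hxs]; simp
  have hzT : z ∈ T := by
    have : b' = z := by
      rw [hz] at hsuf
      simpa using hsuf
    rw [← this]; exact hb'
  have := Adj.pair (P := a :: (List.replicate (p + 1) al ++ v)) (c := z) (d := b) (S := [])
      (by rw [hz] at hadj; simpa using hadj)
  rcases this with h1 | h1 | h1
  · exact hsT (h1 ▸ hzT)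
  · exact hsT (h1 ▸ hb)
  · exact hzal h1.1

theorem ret_lam (hs : s ≠ al) (N : ℕ) (M : Set (List (G ⊕ ℕ))) (fac : Fac M)
    (ok : ∀ w ∈ M, Ok al s w) (h : GoodN N M) : RetN N (Im (lam al) M) := by
  intro T y r a b a' b' hy ha hb ha' hb' hpre hsuf hint hM hN
  obtain ⟨m, hm, P, S, hmS⟩ := hM
  change _ = lamL al m at hmS
  have hadjm := adj_lamL (ok m hm)
  have hadj : Adj al s (a :: (r ++ [b])) := by
    rw [← hmS] at hadjm
    exact isChain_sub hadjm ⟨P, S, rfl⟩
  rcases decomp al r with ⟨n, rfl⟩ | ⟨p, q, r1, hr, hr1a, hr1b⟩
  · simp
  have hlen : y.length ≤ r.length := by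
    have := hpre.length_le
    simpa using this
  rcases decomp al y with ⟨i, hyi⟩ | ⟨i, j, y1, hyi, hy1a, hy1b⟩
  · -- core is a power of `al`
    have hcase : (p = 0 ∧ q = 0 ∧ i = 0) ∨ (1 ≤ p ∧ 1 ≤ q) := by
      by_contra hcon
      push Not at hcon
      obtain ⟨hcon1, hcon2⟩ := hcon
      rcases Nat.eq_zero_or_pos i with hi | hi
      · subst hi
        simp only [List.replicate_zero] at hyi
        subst hyi
        rcases Nat.eq_zero_or_pos p with hp | hp
        · -- p = 0, so q ≥ 1
          have hq : 1 ≤ q := by
            rcases Nat.eq_zero_or_pos q with hq | hq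
            · exact absurd rfl (hcon1 hp hq)
            · exact hq
          subst hp
          have hrr : r.reverse = List.replicate q al ++ r1.reverse := by rw [hr]; simp
          refine empty_side (al := al) (s := s) (T := T) (p := q) (r1 := r1.reverse) (a := b)
            (b := a) (a' := b') (b' := a') hs ha hb' ha' ?_ ?_ hq ?_ ?_ ?_ ?_
          · obtain ⟨x, u, h1, h2⟩ := hr1b
            exact ⟨x, u.reverse, by rw [h1]; simp, h2⟩
          · obtain ⟨x, u, h1, h2⟩ := hr1a
            exact ⟨x, u.reverse, by rw [h1]; simp, h2⟩
          · have h2 : Adj al s (a :: (r ++ [b])).reverse := by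
              unfold Adj at *
              rw [List.isChain_reverse]
              refine hadj.imp (fun c d h => ?_)
              tauto
            rw [hr] at h2
            simpa using h2
          · rw [hrr] at hsuf; simpa using hsuf
          · have : (List.replicate q al ++ r1.reverse).reverse = r := by
              rw [← hrr]; simp
            rw [this]; simpa using hpre
          · intro c hc d hd hin
            apply hint d hd c hc
            have := List.reverse_infix.2 hin
            rw [← hrr] at this
            simpa using this
        · have hq : q = 0 := by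
            have := hcon2 hp
            omega
          subst hq
          have hrr : r = List.replicate p al ++ r1 := by rw [hr]; simp
          refine empty_side (al := al) (s := s) (T := T) (p := p) (r1 := r1) (a := a)
            (b := b) (a' := a') (b' := b') hs hb ha' hb' hr1a hr1b hp ?_ ?_ ?_ ?_
          · rw [hrr] at hadj; simpa using hadj
          · rw [hrr] at hpre; simpa using hpre
          · rw [hrr] at hsuf; simpa using hsuf
          · intro c hc d hd hin
            apply hint c hc d hd
            rw [hrr]; simpa using hin
      · -- i ≥ 1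
        obtain ⟨i, rfl⟩ : ∃ i', i = i' + 1 := ⟨i - 1, by omega⟩
        have hp : 1 ≤ p := by
          rcases Nat.eq_zero_or_pos p with hp | hp
          · exfalso
            subst hp
            obtain ⟨x, u, h1, h2⟩ := hr1a
            rw [hyi, hr, h1, List.replicate_succ] at hpre
            simp only [List.cons_append, List.replicate_zero, List.nil_append,
              List.cons_prefix_cons] at hpre
            exact h2 hpre.1.symm
          · exact hp
        have hq : 1 ≤ q := by
          rcases Nat.eq_zero_or_pos q with hq | hq
          · exfalso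
            subst hq
            obtain ⟨x, u, h1, h2⟩ := hr1b
            rw [hyi, hr, h1, List.replicate_succ] at hsuf
            simp only [List.cons_append, List.replicate_zero, List.append_nil,
              List.reverse_append, List.reverse_cons, List.reverse_nil, List.nil_append,
              List.cons_prefix_cons] at hsuf
            exact h2 hsuf.1.symm
          · exact hq
        exact absurd hq (by have := hcon2 hp; omega)
    rcases hcase with ⟨rfl, rfl, rfl⟩ | ⟨hp, hq⟩
    · -- everything reduces to R1 with empty core
      simp only [List.replicate_zero] at hyi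
      subst hyi
      have hrr : r = r1 := by rw [hr]; simp
      subst hrr
      obtain ⟨x, u, hx, hxal⟩ := hr1a
      obtain ⟨z, v, hz, hzal⟩ := hr1b
      refine R1 (i := 0) (y0 := []) (P := P) (S := S) hs N M fac ok h.ret ha hb ha' hb' rfl
        (by simp) ?_ ?_ (by rw [hx]; simp) ?_ (List.nil_prefix) ?_ (List.nil_prefix) ?_ hm ?_ hN
      · intro Q' hQ
        rw [hx] at hQ
        simp only [List.cons.injEq] at hQ
        exact hxal hQ.1
      · intro Q' hQ
        rw [hz] at hQ
        have := List.append_inj_right' hQ rfl
        simp only [List.cons.injEq, and_true] at this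
        exact hzal this
      · simpa using hpre
      · simpa using hsuf
      · intro c hc d hd hin
        exact hint c hc d hd (by simpa using hin)
      · rw [← hmS]; simp
    · -- R2
      obtain ⟨x, u, hx, hxal⟩ := hr1a
      obtain ⟨z, v, hz, hzal⟩ := hr1b
      have hxs : x = s := by
        obtain ⟨p, rfl⟩ : ∃ p', p = p' + 1 := ⟨p - 1, by omega⟩
        have := Adj.pair (P := a :: List.replicate p al) (c := al) (d := x)
          (S := u ++ List.replicate q al ++ [b])
          (by rw [hr, List.replicate_succ', hx] at hadj; simpa using hadj)
        rcases this with h1 | h1 | h1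
        · exact absurd h1.symm hs
        · exact h1
        · exact absurd h1.2 hxal
      have hzs : z = s := by
        obtain ⟨q, rfl⟩ : ∃ p', q = p' + 1 := ⟨q - 1, by omega⟩
        have := Adj.pair (P := a :: (List.replicate p al ++ v)) (c := z) (d := al)
          (S := List.replicate q al ++ [b])
          (by rw [hr, List.replicate_succ, hz] at hadj; simpa using hadj)
        rcases this with h1 | h1 | h1
        · exact h1
        · exact absurd h1.symm hs
        · exact absurd h1.1 hzal
      subst hxs
      subst hzs
      have hres := R2 (i := i) (p := p) (q := q) (P := P) (S := S) hs N M fac ok h.star ha hb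
        ha' hb' ⟨u, hx⟩ ⟨v, hz⟩ hp hq
        (by rw [hyi, hr] at hpre; simpa using hpre)
        (by rw [hyi, hr] at hsuf; simpa using hsuf)
        (by
          intro c hc d hd hin
          apply hint c hc d hd
          rw [hyi, hr]; exact hin)
        hm (by rw [← hmS, hr]; simp)
        (by
          have : r.length = p + (r1.length + q) := by rw [hr]; simp
          omega)
      obtain ⟨hpq, hr1⟩ := hres
      rw [hr, hpq]
      simp [hr1]
  · -- core is not a power of `al`
    obtain ⟨x, u, hx, hxal⟩ := hr1a
    obtain ⟨z, v, hz, hzal⟩ := hr1b
    obtain ⟨x', u', hx', hxal'⟩ := hy1a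
    obtain ⟨z', v', hz', hzal'⟩ := hy1b
    have hrev : y.reverse = List.replicate j al ++ (y1.reverse ++ List.replicate i al) := by
      rw [hyi]; simp
    have hzr : y1.reverse = z' :: v'.reverse := by rw [hz']; simp
    have hij : j = i ∧ y1.reverse ++ List.replicate i al = y1 ++ List.replicate j al := by
      have h1 : List.replicate j al ++ (z' :: (v'.reverse ++ List.replicate i al)) =
          List.replicate i al ++ (x' :: (u' ++ List.replicate j al)) := by
        have : y.reverse = y := hy
        rw [hrev, hyi, hzr] at this
        rw [hx'] at this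
        simpa using this
      have h2 := run_prefix (al := al) hzal' hxal' (by
        rw [h1] : (List.replicate j al ++ (z' :: (v'.reverse ++ List.replicate i al))) <+:
          (List.replicate i al ++ (x' :: (u' ++ List.replicate j al))))
      have h3 := run_prefix (al := al) hxal' hzal' (by
        rw [h1] : (List.replicate i al ++ (x' :: (u' ++ List.replicate j al))) <+:
          (List.replicate j al ++ (z' :: (v'.reverse ++ List.replicate i al))))
      refine ⟨h2.1, ?_⟩
      rw [hzr]
      have h4 := h2.2.eq_of_length_le h3.2.length_le
      rw [List.cons_append, h4, hx']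
      simp
    obtain ⟨rfl, hyrev⟩ := hij
    have hy1 : y1.reverse = y1 := List.append_left_injective _ hyrev
    have hpre1 : (List.replicate j al ++ (x' :: (u' ++ (List.replicate j al ++ [a'])))) <+:
        (List.replicate p al ++ (x :: (u ++ (List.replicate q al ++ [b])))) := by
      rw [hyi, hr, hx, hx'] at hpre
      simpa using hpre
    obtain ⟨hjp, hpre2⟩ := run_prefix (al := al) hxal' hxal hpre1
    have hrr : r1.reverse = z :: v.reverse := by rw [hz]; simp
    have hsuf1 : (List.replicate j al ++ (x' :: (u' ++ (List.replicate j al ++ [b'])))) <+: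
        (List.replicate q al ++ (z :: (v.reverse ++ (List.replicate p al ++ [a])))) := by
      have h1 : r.reverse = List.replicate q al ++ (r1.reverse ++ List.replicate p al) := by
        rw [hr]; simp
      rw [hyi, h1, hrr, hx'] at hsuf
      simpa using hsuf
    obtain ⟨hjq, hsuf2⟩ := run_prefix (al := al) hxal' hzal hsuf1
    subst hjp
    subst hjq
    have hlen1 : y1.length ≤ r1.length := by
      have h1 : y.length = j + (y1.length + j) := by rw [hyi]; simp
      have h2 : r.length = j + (r1.length + j) := by rw [hr]; simp
      omega
    have hpre3 : (y1 ++ (List.replicate j al ++ [a'])) <+: (r1 ++ (List.replicate j al ++ [b])) := by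
      rw [hx, hx']; simpa using hpre2
    have hsuf3 : (y1 ++ (List.replicate j al ++ [b'])) <+:
        (r1.reverse ++ (List.replicate j al ++ [a])) := by
      rw [hrr, hx']; simpa using hsuf2
    have hres := R1 (i := j) (y0 := y1) (P := P) (S := S) hs N M fac ok h.ret ha hb ha' hb' hy1
      (by
        intro P' hP
        rw [hz'] at hP
        have := List.append_inj_right' hP rfl
        simp only [List.cons.injEq, and_true] at this
        exact hzal' this)
      (by
        intro Q' hQ
        rw [hx] at hQ
        simp only [List.cons.injEq] at hQ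
        exact hxal hQ.1)
      (by
        intro P' hP
        rw [hz] at hP
        have := List.append_inj_right' hP rfl
        simp only [List.cons.injEq, and_true] at this
        exact hzal this)
      (by rw [hx]; simp)
      hpre3
      (List.prefix_of_prefix_length_le ((List.prefix_append _ _).trans hpre3)
        (List.prefix_append _ _) hlen1)
      hsuf3
      (List.prefix_of_prefix_length_le ((List.prefix_append _ _).trans hsuf3)
        (List.prefix_append _ _) (by simpa using hlen1))
      (by
        intro c hc d hd hin
        apply hint c hc d hd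
        rw [hyi]
        have h1 : r1 <:+: r := by
          rw [hr]; exact ⟨List.replicate j al, List.replicate j al, by simp⟩
        have h2 := hin.trans h1
        simpa using h2)
      hm (by rw [← hmS, hr]; simp)
      (by
        have h2 : r.length = j + (r1.length + j) := by rw [hr]; simp
        omega)
    rw [hr]
    simp [hres]

theorem good_lam (hs : s ≠ al) (N : ℕ) (M : Set (List (G ⊕ ℕ))) (fac : Fac M)
    (ok : ∀ w ∈ M, Ok al s w) (h : GoodN N M) : GoodN N (Im (lam al) M) :=
  ⟨star_lam hs N M fac ok h.star, ret_lam hs N M fac ok h⟩

end Lam4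

end Pool.Agent.Work.MP_8d80dd_co
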