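import Pool.Agent.Work.MP_8d80dd_co.Epi

set_option autoImplicit false

namespace Pool.Agent.Work.MP_8d80dd_co

open List

theorem GoodN.mono {G : Type*} {N N' : ℕ} {M M' : Set (List G)} (h : GoodN N M) (hN : N' ≤ N)
    (hM : M' ⊆ M) : GoodN N' M' where
  star := fun T t t' y ht ht' hy hm hl => h.star T t t' y ht ht' hy (hM hm) (hl.trans hN)
  ret := fun T y r a b a' b' hy ha hb ha' hb' h1 h2 h3 hm hl =>
    h.ret T y r a b a' b' hy ha hb ha' hb' h1 h2 h3 (hM hm) (hl.trans hN)

theorem Im_ext {G H : Type*} {σ : G → List H} (hσ : ∀ c, σ c ≠ []) {M : Set (List G)}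
    (h : Ext M) : Ext (Im σ M) := by
  rintro x ⟨m, hm, P, S, hPS⟩
  obtain ⟨e, f, hef⟩ := h m hm
  obtain ⟨P', e', he'⟩ : ∃ P' e', σ e ++ P = P' ++ [e'] := by
    rcases List.eq_nil_or_concat' (σ e ++ P) with h0 | ⟨P', e', h0⟩
    · exact absurd (List.append_eq_nil_iff.1 h0).1 (hσ e)
    · exact ⟨P', e', h0⟩
  obtain ⟨f', S', hf'⟩ : ∃ f' S', S ++ σ f = f' :: S' := by
    rcases h0 : S ++ σ f with _ | ⟨f', S'⟩
    · exact absurd (List.append_eq_nil_iff.1 h0).2 (hσ f)
    · exact ⟨f', S', rfl⟩
  refine ⟨e', f', e :: (m ++ [f]), hef, P', S', ?_⟩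
  have h1 : (e :: (m ++ [f])).flatMap σ = (σ e ++ P) ++ x ++ (S ++ σ f) := by
    simp [← hPS]
  rw [h1, he', hf']
  simp

/-- iterating `Im (psiL s)` -/
def ImPow {G : Type*} [DecidableEq G] (s : G) : ℕ → Set (List G) → Set (List G)
  | 0, M => M
  | k + 1, M => Im (psiL s) (ImPow s k M)

theorem psiL_ne_nil {G : Type*} [DecidableEq G] (s : G) (c : G) : psiL s c ≠ [] := by
  unfold psiL; split <;> simp

theorem ImPow_fac {G : Type*} [DecidableEq G] (s : G) (k : ℕ) {M : Set (List G)} (h : Fac M) :
    Fac (ImPow s k M) := by
  cases k with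
  | zero => exact h
  | succ k => exact Im_fac _ _

theorem ImPow_ext {G : Type*} [DecidableEq G] (s : G) (k : ℕ) {M : Set (List G)} (h : Ext M) :
    Ext (ImPow s k M) := by
  induction k with
  | zero => exact h
  | succ k ih => exact Im_ext (psiL_ne_nil s) ih

theorem good_ImPow {G : Type*} [DecidableEq G] (s : G) (k N : ℕ) {M : Set (List G)}
    (hf : Fac M) (he : Ext M) (h : GoodN N M) : GoodN (N + k) (ImPow s k M) := by
  induction k with
  | zero => exact h
  | succ k ih =>
    exact ⟨star_psi _ _ (ImPow_fac s k hf) ih.star,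
      ret_psi _ _ (ImPow_fac s k hf) (ImPow_ext s k he) ih⟩

theorem mem_ImPow {G : Type*} [DecidableEq G] (s : G) (k : ℕ) {M : Set (List G)} {m : List G}
    (hm : m ∈ M) : (psi s)^[k] m ∈ ImPow s k M := by
  induction k with
  | zero => exact hm
  | succ k ih =>
    rw [Function.iterate_succ_apply']
    exact ⟨_, ih, List.infix_rfl⟩

/-- the morphisms considered: letters go to powers of letters, and only powers of `al` may
have exponent bigger than one -/
def Theta {A G : Type*} (g : A → G) (m : A → ℕ) (c : A) : List G := List.replicate (m c + 1) (g c)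

theorem Theta_ne_nil {A G : Type*} (g : A → G) (m : A → ℕ) (c : A) : Theta g m c ≠ [] := by
  simp [Theta]

theorem flatMap_psi {A G : Type*} [DecidableEq A] (b : A) (σ : A → List G) (z : List A) :
    (psi b z).flatMap σ = z.flatMap (fun c => (psiL b c).flatMap σ) := by
  simp [psi, List.flatMap_assoc]

/-- every word of `Im σ L` is a factor of an image of `psi b z` with `z` in the derived language -/
theorem Im_derived {A G : Type*} [DecidableEq A] {L : Set (List A)} (h : EpiLang L) {b : A}
    (hb : [b] ∈ L) (hsep : ∀ w ∈ L, Sep b w) (σ : A → List G) {w : List G} (hw : w ∈ Im σ L) :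
    ∃ z ∈ Der b L, w <:+: (psi b z).flatMap σ := by
  obtain ⟨z, hz, hwz⟩ := hw
  obtain ⟨z', hz', h1⟩ := closing h hb hsep z hz
  obtain ⟨e, he⟩ := (h.derived hb hsep).ext z' hz'
  refine ⟨z' ++ [e], he, hwz.trans ?_⟩
  have h2 : Psi b z' <:+: psi b (z' ++ [e]) := by
    rw [psi_append]
    by_cases heb : e = b
    · subst heb; exact ⟨[], [], by simp [Psi]⟩
    · exact ⟨[], [e], by simp [Psi, psi_cons_ne heb]⟩
  obtain ⟨P, S, hPS⟩ := h1.trans h2
  exact ⟨P.flatMap σ, S.flatMap σ, by rw [← hPS]; simp⟩

theorem psi_replicate {G : Type*} [DecidableEq G] (s : G) (k : ℕ) :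
    psi s (List.replicate k s) = List.replicate k s := by
  induction k with
  | zero => rfl
  | succ k ih => rw [List.replicate_succ, psi_cons_self, ih]

theorem iterate_psi_replicate {G : Type*} [DecidableEq G] (s : G) (j k : ℕ) :
    (psi s)^[j] (List.replicate k s) = List.replicate k s := by
  induction j with
  | zero => rfl
  | succ j ih => rw [Function.iterate_succ_apply', ih, psi_replicate]

theorem iterate_psi_append {G : Type*} [DecidableEq G] (s : G) (j : ℕ) (v w : List G) :
    (psi s)^[j] (v ++ w) = (psi s)^[j] v ++ (psi s)^[j] w := by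
  induction j with
  | zero => rfl
  | succ j ih => simp only [Function.iterate_succ_apply', ih, psi_append]

theorem iterate_psi_nil {G : Type*} [DecidableEq G] (s : G) (j : ℕ) :
    (psi s)^[j] [] = [] := by
  induction j with
  | zero => rfl
  | succ j ih => rw [Function.iterate_succ_apply', ih]; rfl

theorem iterate_psi_single {G : Type*} [DecidableEq G] {s c : G} (hc : c ≠ s) (j : ℕ) :
    (psi s)^[j] [c] = List.replicate j s ++ [c] := by
  induction j with
  | zero => rfl
  | succ j ih =>
    rw [Function.iterate_succ_apply', ih, psi_append, psi_replicate, psi_cons_ne hc,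
      List.replicate_succ']
    simp

theorem iterate_psi_flatMap {A G : Type*} [DecidableEq G] (s : G) (j : ℕ) (σ : A → List G)
    (z : List A) : (psi s)^[j] (z.flatMap σ) = z.flatMap (fun c => (psi s)^[j] (σ c)) := by
  induction z with
  | nil => simp [iterate_psi_nil]
  | cons c z ih => simp only [List.flatMap_cons, iterate_psi_append, ih]

universe u v

theorem main {A : Type u} [DecidableEq A] : ∀ (N : ℕ) (G : Type v) [DecidableEq G]
    (L : Set (List A)), EpiLang L → ∀ (g : A → G) (m : A → ℕ) (al : G),
    (∀ c, g c ≠ al → m c = 0) → GoodN N (Im (Theta g m) L) := by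
  intro N
  induction N with
  | zero =>
    intro G _ L _ g m al _
    exact ⟨fun _ _ _ _ _ _ _ _ h => by omega, fun _ _ _ _ _ _ _ _ _ _ _ _ _ _ _ _ h => by omega⟩
  | succ N ih =>
    intro G _ L hL g m al hm
    obtain ⟨b, hb, hsep⟩ := exists_sep hL
    have hD := hL.derived hb hsep
    by_cases hgb : g b = al
    · -- Case 1
      let m' : A → ℕ := fun c => if c = b then m b else if g c = al then m b + m c + 1 else 0
      have hm' : ∀ c, g c ≠ al → m' c = 0 := by
        intro c hc
        have hcb : c ≠ b := by rintro rfl; exact hc hgb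
        simp [m', hcb, hc]
      have h1 := ih G (Der b L) hD g m' al hm'
      have h2 := good_ImPow al (m b + 1) N (Im_fac _ _) (Im_ext (Theta_ne_nil g m') hD.Ext) h1
      refine h2.mono (by omega) ?_
      intro w hw
      obtain ⟨z, hz, hwz⟩ := Im_derived hL hb hsep _ hw
      refine ImPow_fac al (m b + 1) (Im_fac _ _) _ ?_ w hwz
      have hmem : z.flatMap (Theta g m') ∈ Im (Theta g m') (Der b L) := ⟨z, hz, List.infix_rfl⟩
      have h3 := mem_ImPow al (m b + 1) hmem
      rw [iterate_psi_flatMap] at h3
      rw [flatMap_psi]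
      convert h3 using 2
      funext c
      by_cases hcb : c = b
      · subst hcb
        simp only [psiL_self, List.flatMap_cons, List.flatMap_nil, List.append_nil]
        simp only [Theta, m', if_true, hgb]
        rw [iterate_psi_replicate]
      · rw [psiL_ne hcb]
        by_cases hgc : g c = al
        · simp only [List.flatMap_cons, List.flatMap_nil, List.append_nil, Theta, m', hcb,
            if_false, hgc, if_true, hgb]
          rw [iterate_psi_replicate, ← List.replicate_add]
          congr 1; omega
        · simp only [List.flatMap_cons, List.flatMap_nil, List.append_nil, Theta, m', hcb,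
            if_false, hgc, hgb, hm c hgc, zero_add, List.replicate_one]
          rw [iterate_psi_single hgc]
    · -- Case 2
      let g' : A → G ⊕ ℕ := fun c => if g c = al then Sum.inr (m c) else Sum.inl (g c)
      let m' : A → ℕ := fun c => if g c = g b ∧ c ≠ b then 1 else 0
      have hm' : ∀ c, g' c ≠ Sum.inl (g b) → m' c = 0 := by
        intro c hc
        by_cases h0 : g c = g b
        · exfalso
          apply hc
          simp [g', h0, hgb]
        · simp [m', h0]
      have h1 := ih (G ⊕ ℕ) (Der b L) hD g' m' (Sum.inl (g b)) hm'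
      have h2 : GoodN (N + 1) (Im (psiL (Sum.inl (g b))) (Im (Theta g' m') (Der b L))) :=
        ⟨star_psi _ _ (Im_fac _ _) h1.star,
          ret_psi _ _ (Im_fac _ _) (Im_ext (Theta_ne_nil g' m') hD.Ext) h1⟩
      have h3 := good_lam (al := al) (s := g b) hgb (N + 1) _ (Im_fac _ _) (by
        intro w hw
        refine ⟨sep_of_mem_Im hw, ?_⟩
        obtain ⟨x, ⟨z, hz, hxz⟩, hwx⟩ := hw
        intro hmem
        have h4 := hwx.subset hmem
        rw [psi_eq_flatMap] at h4
        have h5 : ∀ (x : List (G ⊕ ℕ)), Sum.inl al ∈ psi (Sum.inl (g b)) x → Sum.inl al ∈ x := by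
          intro x
          induction x with
          | nil => intro h; simp at h
          | cons c x ihx =>
            intro h
            by_cases hc : c = Sum.inl (g b)
            · subst hc
              rw [psi_cons_self, List.mem_cons] at h
              rcases h with h | h
              · exact absurd (Sum.inl_injective h).symm hgb
              · exact List.mem_cons_of_mem _ (ihx h)
            · rw [psi_cons_ne hc, List.mem_cons, List.mem_cons] at h
              rcases h with h | h | h
              · exact absurd (Sum.inl_injective h).symm hgb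
              · rw [h]; simp
              · exact List.mem_cons_of_mem _ (ihx h)
        have h6 := hxz.subset (h5 x h4)
        rw [List.mem_flatMap] at h6
        obtain ⟨c, _, hc⟩ := h6
        have h7 := List.eq_of_mem_replicate hc
        by_cases hgc : g c = al
        · simp [g', hgc] at h7
        · simp only [g', hgc, if_false] at h7
          exact hgc (Sum.inl_injective h7).symm) h2
      refine h3.mono le_rfl ?_
      intro w hw
      obtain ⟨z, hz, hwz⟩ := Im_derived hL hb hsep _ hw
      refine ⟨psi (Sum.inl (g b)) (z.flatMap (Theta g' m')),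
        ⟨z.flatMap (Theta g' m'), ⟨z, hz, List.infix_rfl⟩, List.infix_rfl⟩, ?_⟩
      refine hwz.trans ?_
      rw [flatMap_psi]
      have e1 : psi (Sum.inl (g b)) (z.flatMap (Theta g' m')) =
          z.flatMap (fun c => psi (Sum.inl (g b)) (Theta g' m' c)) :=
        iterate_psi_flatMap (Sum.inl (g b)) 1 (Theta g' m') z
      rw [e1, List.flatMap_assoc]
      have e2 : (fun c => (psiL b c).flatMap (Theta g m)) =
          (fun c => (psi (Sum.inl (g b)) (Theta g' m' c)).flatMap (lam al)) := by
        funext c
        by_cases hcb : c = b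
        · subst hcb
          simp [Theta, g', m', hgb, hm c hgb, lam]
        · rw [psiL_ne hcb]
          by_cases hgc : g c = al
          · have h8 : g c ≠ g b := fun h => hgb (h ▸ hgc)
            have h9 : (Sum.inr (m c) : G ⊕ ℕ) ≠ Sum.inl (g b) := by simp
            have h8' : ¬ al = g b := fun h => hgb h.symm
            simp [Theta, g', m', hgc, hm b hgb, lam, h8', psi_cons_ne h9]
          · by_cases hgc2 : g c = g b
            · simp [Theta, g', m', hcb, hgb, hm b hgb, hm c hgc, hgc2, lam,
                List.replicate_succ]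
            · have h9 : (Sum.inl (g c) : G ⊕ ℕ) ≠ Sum.inl (g b) := by
                simpa using hgc2
              simp [Theta, g', m', hgc, hm b hgb, hm c hgc, hgc2, lam, psi_cons_ne h9]
      rw [e2]

end Pool.Agent.Work.MP_8d80dd_co
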