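import Mathlib

set_option autoImplicit false

namespace Pool.Agent.Work.MP_8d80dd_co

open List

section Psi
variable {G : Type*} [DecidableEq G] (s : G)

/-- image of a letter under the elementary episturmian morphism `c ↦ s c`, `s ↦ s` -/
def psiL (c : G) : List G := if c = s then [s] else [s, c]

/-- the elementary episturmian morphism -/
def psi (w : List G) : List G := w.flatMap (psiL s)

/-- the closed-up image -/
def Psi (w : List G) : List G := psi s w ++ [s]

variable {s}

@[simp] theorem psi_nil : psi s [] = [] := rfl

theorem psi_cons (c : G) (w : List G) : psi s (c :: w) = psiL s c ++ psi s w := by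
  simp [psi]

theorem psi_append (v w : List G) : psi s (v ++ w) = psi s v ++ psi s w := by
  simp [psi]

@[simp] theorem psiL_self : psiL s s = [s] := by simp [psiL]

theorem psiL_ne {c : G} (h : c ≠ s) : psiL s c = [s, c] := by simp [psiL, h]

@[simp] theorem psi_cons_self (w : List G) : psi s (s :: w) = s :: psi s w := by
  simp [psi_cons]

theorem psi_cons_ne {c : G} (h : c ≠ s) (w : List G) :
    psi s (c :: w) = s :: c :: psi s w := by
  simp [psi_cons, psiL_ne h]

@[simp] theorem Psi_nil : Psi s [] = [s] := rfl

theorem Psi_append (v w : List G) : Psi s (v ++ w) = psi s v ++ Psi s w := by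
  simp [Psi, psi_append]

theorem Psi_cons (c : G) (w : List G) : Psi s (c :: w) = psiL s c ++ Psi s w := by
  simp [Psi, psi_cons]

@[simp] theorem Psi_cons_self (w : List G) : Psi s (s :: w) = s :: Psi s w := by
  simp [Psi_cons]

theorem Psi_cons_ne {c : G} (h : c ≠ s) (w : List G) :
    Psi s (c :: w) = s :: c :: Psi s w := by
  simp [Psi_cons, psiL_ne h]

theorem Psi_head (w : List G) : ∃ t, Psi s w = s :: t := by
  cases w with
  | nil => exact ⟨[], rfl⟩
  | cons c w =>
    by_cases h : c = s
    · subst h; exact ⟨_, Psi_cons_self w⟩
    · exact ⟨_, Psi_cons_ne h w⟩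

/-- after a letter `c` the word `Psi` continues with `s, c`. -/
theorem Psi_cons_head2 (c : G) (w : List G) : ∃ t, Psi s (c :: w) = s :: c :: t := by
  by_cases h : c = s
  · subst h
    obtain ⟨t, ht⟩ := Psi_head (s := c) w
    exact ⟨t, by rw [Psi_cons_self, ht]⟩
  · exact ⟨_, Psi_cons_ne h w⟩

theorem psi_snoc_last (w : List G) (c : G) : ∃ t, psi s (w ++ [c]) = t ++ [c] := by
  by_cases h : c = s
  · subst h
    exact ⟨psi c w, by simp [psi_append]⟩
  · exact ⟨psi s w ++ [s], by simp [psi_append, psi_cons_ne h]⟩

theorem Psi_reverse (w : List G) : Psi s w.reverse = (Psi s w).reverse := by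
  induction w with
  | nil => simp
  | cons c w ih =>
    have e : (Psi s (c :: w)).reverse = Psi s w.reverse ++ (psiL s c).reverse := by
      rw [Psi_cons, List.reverse_append, ih]
    rw [e, List.reverse_cons, Psi_append]
    by_cases h : c = s
    · subst h; simp [Psi]
    · simp [Psi, psi_cons_ne h, psiL_ne h]

theorem psi_split (m : List G) : ∀ (P Q : List G), psi s m = P ++ s :: Q →
    ∃ m1 m2, m = m1 ++ m2 ∧ psi s m1 = P ∧ psi s m2 = s :: Q := by
  induction m with
  | nil => intro P Q h; simp at h
  | cons c m ih =>
    intro P Q h
    cases P with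
    | nil => exact ⟨[], c :: m, rfl, rfl, by simpa using h⟩
    | cons p P =>
      by_cases hc : c = s
      · subst hc
        rw [psi_cons_self] at h
        simp only [List.cons_append, List.cons.injEq] at h
        obtain ⟨m1, m2, h1, h2, h3⟩ := ih P Q h.2
        exact ⟨c :: m1, m2, by simp [h1], by rw [psi_cons_self, h2, h.1], h3⟩
      · rw [psi_cons_ne hc] at h
        cases P with
        | nil =>
          simp only [List.cons_append, List.nil_append, List.cons.injEq] at h
          exact absurd h.2.1 hc
        | cons p' P =>
          simp only [List.cons_append, List.cons.injEq] at h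
          obtain ⟨m1, m2, h1, h2, h3⟩ := ih P Q h.2.2
          exact ⟨c :: m1, m2, by simp [h1], by rw [psi_cons_ne hc, h2, h.1, h.2.1], h3⟩

/-- first letter decoding -/
theorem psi_first {m : List G} {b : G} {S : List G} (h : psi s m = s :: b :: S) :
    ∃ m', m = b :: m' := by
  cases m with
  | nil => simp at h
  | cons c m =>
    by_cases hc : c = s
    · subst hc
      rw [psi_cons_self] at h
      simp only [List.cons.injEq, true_and] at h
      cases m with
      | nil => simp at h
      | cons d m =>
        by_cases hd : d = c
        · subst hd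
          simp only [psi_cons_self, List.cons.injEq] at h
          exact ⟨_, by rw [h.1]⟩
        · rw [psi_cons_ne hd] at h
          simp only [List.cons.injEq] at h
          exact ⟨_, by rw [h.1]⟩
    · rw [psi_cons_ne hc] at h
      simp only [List.cons.injEq, true_and] at h
      exact ⟨m, by rw [h.1]⟩

/-- last letter decoding -/
theorem psi_last {m : List G} {a : G} {P : List G} (h : psi s m = P ++ [a]) :
    ∃ m', m = m' ++ [a] := by
  rcases List.eq_nil_or_concat' m with rfl | ⟨m', c, rfl⟩
  · simp at h
  · obtain ⟨t, ht⟩ := psi_snoc_last (s := s) m' c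
    rw [ht] at h
    have := List.append_inj_right' h rfl
    simp only [List.cons.injEq, and_true] at this
    exact ⟨m', by simp [this]⟩

/-- decoding a factor with both neighbours, the factor starting and ending with `s`. -/
theorem psi_decode {m : List G} {P S x : List G} {a b : G}
    (h : psi s m = P ++ (a :: ((s :: x) ++ (b :: S)))) (hx : ∃ t, s :: x = t ++ [s]) :
    ∃ m1 x' m3, m = m1 ++ (a :: (x' ++ (b :: m3))) ∧ Psi s x' = s :: x := by
  obtain ⟨t, ht⟩ := hx
  have h' : psi s m = (P ++ [a]) ++ s :: (x ++ (b :: S)) := by simpa using h
  obtain ⟨m1, m2, rfl, h1, h2⟩ := psi_split m _ _ h'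
  obtain ⟨m1', rfl⟩ := psi_last h1
  have h2' : psi s m2 = t ++ s :: (b :: S) := by
    rw [h2, ← List.cons_append, ht]; simp
  obtain ⟨x', m3, rfl, h3, h4⟩ := psi_split m2 _ _ h2'
  obtain ⟨m3', rfl⟩ := psi_first h4
  exact ⟨m1', x', m3', by simp, by rw [Psi, h3, ht]⟩

/-- prefix decoding with one more letter -/
theorem Psi_prefix_decode (y : List G) : ∀ (r : List G) (a b : G),
    (Psi s y ++ [a]) <+: (Psi s r ++ [b]) → (y ++ [a]) <+: (r ++ [b]) := by
  induction y with
  | nil =>
    intro r a b h
    cases r with
    | nil => simpa using h
    | cons c r =>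
      obtain ⟨t, ht⟩ := Psi_cons_head2 (s := s) c r
      rw [ht] at h
      simp only [Psi_nil, List.cons_append, List.nil_append, List.cons_prefix_cons, true_and] at h
      rw [h.1]
      simp
  | cons d y ih =>
    intro r a b h
    cases r with
    | nil =>
      have hl := h.length_le
      by_cases hd : d = s
      · subst hd; simp [Psi] at hl
      · simp [Psi, psi_cons_ne hd] at hl
    | cons c r =>
      by_cases hd : d = s
      · subst hd
        rw [Psi_cons_self] at h
        by_cases hc : c = d
        · subst hc
          rw [Psi_cons_self] at h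
          simp only [List.cons_append, List.cons_prefix_cons, true_and] at h ⊢
          exact ih r a b h
        · exfalso
          rw [Psi_cons_ne hc] at h
          obtain ⟨t, ht⟩ := Psi_head (s := d) y
          rw [ht] at h
          simp only [List.cons_append, List.cons_prefix_cons, true_and] at h
          exact hc h.1.symm
      · rw [Psi_cons_ne hd] at h
        by_cases hc : c = s
        · exfalso
          subst hc
          rw [Psi_cons_self] at h
          obtain ⟨t, ht⟩ := Psi_head (s := c) r
          rw [ht] at h
          simp only [List.cons_append, List.cons_prefix_cons, true_and] at h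
          exact hd h.1
        · rw [Psi_cons_ne hc] at h
          simp only [List.cons_append, List.cons_prefix_cons, true_and] at h ⊢
          exact ⟨h.1, ih r a b h.2⟩

theorem Psi_injective {v w : List G} (h : Psi s v = Psi s w) : v = w := by
  have h1 : (v ++ [s]) <+: (w ++ [s]) :=
    Psi_prefix_decode v w s s (by rw [h])
  have h2 : (w ++ [s]) <+: (v ++ [s]) :=
    Psi_prefix_decode w v s s (by rw [h])
  have := h1.eq_of_length_le h2.length_le
  exact List.append_left_injective [s] this

/-- prefix decoding -/
theorem Psi_prefix {y r : List G} (h : Psi s y <+: Psi s r) : y <+: r := by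
  obtain ⟨t, ht⟩ := h
  cases t with
  | nil =>
    rw [List.append_nil] at ht
    rw [Psi_injective ht]
  | cons a t =>
    have h1 : (Psi s y ++ [a]) <+: (Psi s r ++ [s]) := by
      rw [← ht]
      exact ⟨t ++ [s], by simp⟩
    have h2 := Psi_prefix_decode y r a s h1
    have h3 : y <+: (r ++ [s]) := (List.prefix_append y [a]).trans h2
    have hlen : y.length ≤ r.length := by
      have := h2.length_le
      simpa using this
    exact List.prefix_of_prefix_length_le h3 (List.prefix_append r [s]) hlen

/-- an infix `c y d` yields an infix `c Psi(y) d`. -/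
theorem Psi_infix {y r : List G} {c d : G} (h : (c :: (y ++ [d])) <:+: r) :
    (c :: (Psi s y ++ [d])) <:+: Psi s r := by
  obtain ⟨P, S, rfl⟩ := h
  obtain ⟨t, ht⟩ := Psi_cons_head2 (s := s) d S
  obtain ⟨t', ht'⟩ := psi_snoc_last (s := s) P c
  refine ⟨t', t, ?_⟩
  have e1 : P ++ (c :: (y ++ [d])) ++ S = (P ++ [c]) ++ (y ++ (d :: S)) := by simp
  rw [e1, Psi_append, ht', Psi_append, ht]
  simp [Psi]

theorem mem_Psi {w : List G} {c : G} (h : c ∈ w) : c ∈ Psi s w := by
  induction w with
  | nil => simp at h
  | cons d w ih =>
    rw [Psi_cons]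
    rcases List.mem_cons.1 h with rfl | h
    · by_cases hd : c = s
      · subst hd; simp
      · simp [psiL_ne hd]
    · exact List.mem_append_right _ (ih h)

theorem length_le_psi (w : List G) : w.length ≤ (psi s w).length := by
  induction w with
  | nil => simp
  | cons c w ih =>
    by_cases hc : c = s
    · subst hc; simp; exact ih
    · rw [psi_cons_ne hc]; simp; omega

theorem length_lt_Psi (w : List G) : w.length < (Psi s w).length := by
  have := length_le_psi (s := s) w
  simp [Psi]; omega

end Psi

end Pool.Agent.Work.MP_8d80dd_co
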